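import Mathlib

/-!
# Integers with missing digits: blocks and their exponential sums
-/

set_option autoImplicit false

open Finset

namespace Pool.Agent.H31.ZD

/-- all digits of `n` in base `b` lie in `D` -/
def DigIn (b : ℕ) (D : Finset ℕ) (n : ℕ) : Prop := ∀ d ∈ Nat.digits b n, d ∈ D

lemma DigIn_iff {b : ℕ} (hb : 2 ≤ b) (D : Finset ℕ) {n : ℕ} (hn : 1 ≤ n) :
    DigIn b D n ↔ n % b ∈ D ∧ DigIn b D (n / b) := by
  unfold DigIn
  rw [Nat.digits_def' (by omega) (by omega)]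
  simp

/-- the digits of a number with a low block -/
lemma dig_split {b : ℕ} (hb : 2 ≤ b) (D : Finset ℕ) (j : ℕ) : ∀ h u : ℕ, 1 ≤ h → u < b^j →
    (DigIn b D (h * b^j + u) ↔ DigIn b D h ∧ ∀ i < j, u / b^i % b ∈ D) := by
  induction j with
  | zero =>
    intro h u _ hu
    have : u = 0 := by simpa using hu
    subst this
    simp
  | succ j ih =>
    intro h u hh hu
    have hbp : 0 < b := by omega
    have hbj : 0 < b^(j+1) := by positivity
    have hn : 1 ≤ h * b^(j+1) + u := by nlinarith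
    have e1 : h * b^(j+1) + u = u + (h * b^j) * b := by ring
    have g1 : (h * b^(j+1) + u) % b = u % b := by rw [e1, Nat.add_mul_mod_self_right]
    have g2 : (h * b^(j+1) + u) / b = h * b^j + u / b := by rw [e1, Nat.add_mul_div_right _ _ hbp]; ring
    have g3 : u / b < b^j := by rw [Nat.div_lt_iff_lt_mul hbp]; rw [pow_succ] at hu; exact hu
    rw [DigIn_iff hb D hn, g1, g2, ih h (u / b) hh g3]
    constructor
    · rintro ⟨h1, h2, h3⟩
      refine ⟨h2, fun i hi => ?_⟩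
      rcases Nat.eq_zero_or_pos i with rfl | hi0
      · simpa using h1
      · have h4 := h3 (i - 1) (by omega)
        rw [Nat.div_div_eq_div_mul, ← pow_succ'] at h4
        have : i - 1 + 1 = i := by omega
        rwa [this] at h4
    · rintro ⟨h1, h2⟩
      refine ⟨by simpa using h2 0 (by omega), h1, fun i hi => ?_⟩
      rw [Nat.div_div_eq_div_mul, ← pow_succ']
      exact h2 (i + 1) (by omega)

open Classical in
/-- the low blocks: numbers below `b ^ j` with `j` digits in `D`, leading zeros counted -/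
noncomputable def Rj (b : ℕ) (D : Finset ℕ) (j : ℕ) : Finset ℕ := (range (b^j)).filter (fun u => ∀ i < j, u / b^i % b ∈ D)

lemma Rj_mem {b : ℕ} {D : Finset ℕ} {j u : ℕ} : u ∈ Rj b D j ↔ u < b^j ∧ ∀ i < j, u / b^i % b ∈ D := by
  classical
  unfold Rj
  rw [mem_filter, mem_range]

lemma Rj_zero (b : ℕ) (D : Finset ℕ) : Rj b D 0 = {0} := by
  ext u
  rw [Rj_mem, mem_singleton]
  simp

/-- sums over the blocks, the lowest digit split off -/
lemma Rj_succ {b : ℕ} (hb : 2 ≤ b) {D : Finset ℕ} (hD : ∀ d ∈ D, d < b) (j : ℕ) {M : Type*} [AddCommMonoid M] (f : ℕ → M) :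
    ∑ u ∈ Rj b D (j+1), f u = ∑ d ∈ D, ∑ v ∈ Rj b D j, f (d + b * v) := by
  have hbp : 0 < b := by omega
  rw [← sum_product']
  symm
  refine sum_bij (fun x _ => x.1 + b * x.2) ?_ ?_ ?_ ?_
  · intro x hx
    rw [mem_product, Rj_mem] at hx
    have hd := hD _ hx.1
    have g1 : (x.1 + b * x.2) % b = x.1 := by rw [Nat.add_mul_mod_self_left, Nat.mod_eq_of_lt hd]
    have g2 : (x.1 + b * x.2) / b = x.2 := by
      rw [Nat.add_mul_div_left _ _ hbp, Nat.div_eq_of_lt hd, zero_add]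
    rw [Rj_mem]
    refine ⟨?_, ?_⟩
    · have g4 : (x.2 + 1) * b ≤ b^j * b := Nat.mul_le_mul_right _ hx.2.1
      have g6 : (x.2 + 1) * b = b * x.2 + b := by ring
      rw [pow_succ]
      omega
    · intro i hi
      rcases Nat.eq_zero_or_pos i with rfl | hi0
      · rw [pow_zero, Nat.div_one, g1]; exact hx.1
      · obtain ⟨i', rfl⟩ : ∃ i', i = i' + 1 := ⟨i - 1, by omega⟩
        rw [pow_succ', ← Nat.div_div_eq_div_mul, g2]
        exact hx.2.2 i' (by omega)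
  · intro x hx y hy hxy
    rw [mem_product] at hx hy
    have hxd := hD _ hx.1
    have hyd := hD _ hy.1
    have h1 : (x.1 + b * x.2) % b = (y.1 + b * y.2) % b := by rw [hxy]
    rw [Nat.add_mul_mod_self_left, Nat.add_mul_mod_self_left, Nat.mod_eq_of_lt hxd, Nat.mod_eq_of_lt hyd] at h1
    have h2 : b * x.2 = b * y.2 := by omega
    exact Prod.ext h1 (Nat.eq_of_mul_eq_mul_left hbp h2)
  · intro u hu
    rw [Rj_mem] at hu
    refine ⟨(u % b, u / b), ?_, Nat.mod_add_div u b⟩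
    rw [mem_product, Rj_mem]
    refine ⟨by simpa using hu.2 0 (by omega), ?_, ?_⟩
    · simp only
      rw [Nat.div_lt_iff_lt_mul hbp, ← pow_succ]
      exact hu.1
    · intro i hi
      simp only
      rw [Nat.div_div_eq_div_mul, ← pow_succ']
      exact hu.2 (i + 1) (by omega)
  · intro x _
    rfl

lemma Rj_card {b : ℕ} (hb : 2 ≤ b) {D : Finset ℕ} (hD : ∀ d ∈ D, d < b) (j : ℕ) : (Rj b D j).card = D.card ^ j := by
  induction j with
  | zero => rw [Rj_zero]; simp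
  | succ j ih =>
    rw [card_eq_sum_ones, Rj_succ hb hD, pow_succ']
    simp [ih]

/-- the additive character `e(x) = exp(2 π i x)` -/
noncomputable def ee (x : ℝ) : ℂ := Complex.exp (((2 * Real.pi * x : ℝ) : ℂ) * Complex.I)

lemma norm_ee (x : ℝ) : ‖ee x‖ = 1 := Complex.norm_exp_ofReal_mul_I _

lemma ee_add (x y : ℝ) : ee (x + y) = ee x * ee y := by
  unfold ee
  rw [← Complex.exp_add]
  congr 1
  push_cast
  ring

lemma ee_int (n : ℤ) : ee n = 1 := by
  unfold ee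
  have := Complex.exp_int_mul_two_pi_mul_I n
  rw [← this]
  congr 1
  push_cast
  ring

/-- the exponential sum over the digits -/
noncomputable def ph (D : Finset ℕ) (x : ℝ) : ℂ := ∑ d ∈ D, ee (d * x)

lemma ph_norm_le (D : Finset ℕ) (x : ℝ) : ‖ph D x‖ ≤ D.card := by
  unfold ph
  refine (norm_sum_le _ _).trans ?_
  simp [norm_ee]

lemma ph_add_int (D : Finset ℕ) (x : ℝ) (n : ℤ) : ph D (x + n) = ph D x := by
  unfold ph
  refine sum_congr rfl fun d _ => ?_
  rw [mul_add, ee_add]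
  have : ee ((d:ℝ) * (n:ℝ)) = 1 := by
    have h := ee_int ((d:ℤ) * n)
    rw [← h]
    push_cast
    rfl
  rw [this, mul_one]

lemma ph_fract (D : Finset ℕ) (x : ℝ) : ph D (Int.fract x) = ph D x := by
  have h : x = Int.fract x + (⌊x⌋ : ℤ) := (Int.fract_add_floor x).symm
  conv_rhs => rw [h]
  rw [ph_add_int]

/-- the exponential sum over the block -/
noncomputable def Sh (b : ℕ) (D : Finset ℕ) (L : ℕ) (x : ℝ) : ℂ := ∑ u ∈ Rj b D L, ee (u * x)

lemma Sh_succ {b : ℕ} (hb : 2 ≤ b) {D : Finset ℕ} (hD : ∀ d ∈ D, d < b) (L : ℕ) (x : ℝ) :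
    Sh b D (L+1) x = ph D x * Sh b D L (b * x) := by
  unfold Sh ph
  rw [Rj_succ hb hD, sum_mul]
  refine sum_congr rfl fun d _ => ?_
  rw [mul_sum]
  refine sum_congr rfl fun v _ => ?_
  rw [← ee_add]
  congr 1
  push_cast
  ring

lemma Sh_norm_le {b : ℕ} (hb : 2 ≤ b) {D : Finset ℕ} (hD : ∀ d ∈ D, d < b) (L : ℕ) (x : ℝ) :
    ‖Sh b D L x‖ ≤ (D.card : ℝ) ^ L := by
  unfold Sh
  refine (norm_sum_le _ _).trans ?_
  simp [norm_ee, Rj_card hb hD]

lemma Sh_zero (b : ℕ) (D : Finset ℕ) (x : ℝ) : Sh b D 0 x = 1 := by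
  unfold Sh
  rw [Rj_zero]
  simp [ee]

/-- the lowest `K` digits -/
lemma Sh_le {b : ℕ} (hb : 2 ≤ b) {D : Finset ℕ} (hD : ∀ d ∈ D, d < b) (K : ℕ) : ∀ (L : ℕ) (x : ℝ), K ≤ L →
    ‖Sh b D L x‖ ≤ ‖Sh b D K x‖ * (D.card : ℝ) ^ (L - K) := by
  induction K with
  | zero =>
    intro L x _
    rw [Sh_zero, norm_one, one_mul, Nat.sub_zero]
    exact Sh_norm_le hb hD L x
  | succ K ih =>
    intro L x hL
    obtain ⟨L', rfl⟩ : ∃ L', L = L' + 1 := ⟨L - 1, by omega⟩
    rw [Sh_succ hb hD, Sh_succ hb hD, norm_mul, norm_mul, mul_assoc]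
    apply mul_le_mul_of_nonneg_left _ (norm_nonneg _)
    have := ih L' (b * x) (by omega)
    rwa [Nat.add_sub_add_right]

/-- the bounds for the `b`-adic intervals -/
noncomputable def Wt (b : ℕ) (S : ℕ → ℝ) : ℕ → ℕ → ℝ
  | 0, _ => 1
  | (K+1), j => S (j / b^K) * Wt b S K (j % b^K)

lemma Wt_nonneg {b : ℕ} (hb : 2 ≤ b) {S : ℕ → ℝ} (hS : ∀ r < b, 0 ≤ S r) (K : ℕ) : ∀ j, j < b^K → 0 ≤ Wt b S K j := by
  induction K with
  | zero => intro j _; exact zero_le_one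
  | succ K ih =>
    intro j hj
    have hbK : 0 < b^K := by positivity
    apply mul_nonneg
    · apply hS
      rw [Nat.div_lt_iff_lt_mul hbK, ← pow_succ']
      exact hj
    · exact ih _ (Nat.mod_lt _ hbK)

lemma sum_divmod (b m : ℕ) (hm : 0 < m) (f g : ℕ → ℝ) :
    ∑ j ∈ range (b * m), f (j / m) * g (j % m) = (∑ q ∈ range b, f q) * ∑ r ∈ range m, g r := by
  rw [sum_mul_sum, ← sum_product']
  symm
  refine sum_bij (fun x _ => x.1 * m + x.2) ?_ ?_ ?_ ?_
  · intro x hx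
    rw [mem_product, mem_range, mem_range] at hx
    rw [mem_range]
    have h1 : (x.1 + 1) * m ≤ b * m := Nat.mul_le_mul_right _ hx.1
    have h2 : (x.1 + 1) * m = x.1 * m + m := by ring
    omega
  · intro x hx y hy hxy
    rw [mem_product, mem_range, mem_range] at hx hy
    have h1 : (x.2 + x.1 * m) % m = (y.2 + y.1 * m) % m := by rw [add_comm, hxy, add_comm]
    rw [Nat.add_mul_mod_self_right, Nat.add_mul_mod_self_right, Nat.mod_eq_of_lt hx.2, Nat.mod_eq_of_lt hy.2] at h1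
    have h2 : x.1 * m = y.1 * m := by omega
    exact Prod.ext (Nat.eq_of_mul_eq_mul_right hm h2) h1
  · intro j hj
    rw [mem_range] at hj
    refine ⟨(j / m, j % m), ?_, Nat.div_add_mod' j m⟩
    rw [mem_product, mem_range, mem_range]
    exact ⟨by rw [Nat.div_lt_iff_lt_mul hm]; exact hj, Nat.mod_lt _ hm⟩
  · intro x hx
    rw [mem_product, mem_range, mem_range] at hx
    have g1 : (x.1 * m + x.2) % m = x.2 := by rw [add_comm, Nat.add_mul_mod_self_right, Nat.mod_eq_of_lt hx.2]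
    have g2 : (x.1 * m + x.2) / m = x.1 := by rw [add_comm, Nat.add_mul_div_right _ _ hm, Nat.div_eq_of_lt hx.2, zero_add]
    rw [g1, g2]

lemma Wt_sum {b : ℕ} (hb : 2 ≤ b) (S : ℕ → ℝ) (K : ℕ) : ∑ j ∈ range (b^K), Wt b S K j = (∑ r ∈ range b, S r) ^ K := by
  induction K with
  | zero => simp [Wt]
  | succ K ih =>
    have hbK : 0 < b^K := by positivity
    have h := sum_divmod b (b^K) hbK S (Wt b S K)
    rw [ih, ← pow_succ', ← pow_succ'] at h
    exact h

/-- the product bound on the `b`-adic intervals -/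
lemma Sh_Wt {b : ℕ} (hb : 2 ≤ b) {D : Finset ℕ} (hD : ∀ d ∈ D, d < b) {S : ℕ → ℝ}
    (hS : ∀ r < b, ∀ x : ℝ, (r:ℝ) / b ≤ x → x ≤ ((r:ℝ) + 1) / b → ‖ph D x‖ ≤ S r) (K : ℕ) :
    ∀ x : ℝ, ‖Sh b D K x‖ ≤ Wt b S K ⌊(b:ℝ)^K * Int.fract x⌋₊ := by
  have hb0 : (0:ℝ) < b := by exact_mod_cast (by omega : 0 < b)
  induction K with
  | zero => intro x; rw [Sh_zero]; simp [Wt]
  | succ K ih =>
    intro x
    have hf0 := Int.fract_nonneg x
    have hf1 := Int.fract_lt_one x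
    have hbK : 0 < b^K := by positivity
    have hbKr : (0:ℝ) < (b:ℝ)^K := by positivity
    set y := Int.fract x with hy
    set j := ⌊(b:ℝ)^(K+1) * y⌋₊ with hj
    have hj1 : (j:ℝ) ≤ (b:ℝ)^(K+1) * y := Nat.floor_le (by positivity)
    have hj2 : (b:ℝ)^(K+1) * y < j + 1 := Nat.lt_floor_add_one _
    -- the top digit
    have hq : j / b^K = ⌊(b:ℝ) * y⌋₊ := by
      have h1 : (b:ℝ) * y = ((b:ℝ)^(K+1) * y) / ((b^K : ℕ) : ℝ) := by
        push_cast
        rw [pow_succ]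
        field_simp
      rw [h1, Nat.floor_div_natCast]
    have hq1 : ((⌊(b:ℝ) * y⌋₊ : ℕ) : ℝ) ≤ b * y := Nat.floor_le (by positivity)
    have hq2 : (b:ℝ) * y < (⌊(b:ℝ) * y⌋₊ : ℕ) + 1 := Nat.lt_floor_add_one _
    have hqb : ⌊(b:ℝ) * y⌋₊ < b := by
      have : (b:ℝ) * y < b := by nlinarith
      exact (Nat.floor_lt (by positivity)).mpr this
    rw [Sh_succ hb hD, norm_mul]
    have h1 : ‖ph D x‖ ≤ S (j / b^K) := by
      rw [hq, ← ph_fract]
      apply hS _ hqb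
      · rw [div_le_iff₀ hb0]; linarith
      · rw [le_div_iff₀ hb0]; linarith
    -- the rest
    have hfr : Int.fract ((b:ℝ) * x) = (b:ℝ) * y - (⌊(b:ℝ) * y⌋₊ : ℕ) := by
      rw [Int.fract_eq_iff]
      refine ⟨by linarith, by linarith, ⟨(b:ℤ) * ⌊x⌋ + (⌊(b:ℝ) * y⌋₊ : ℕ), ?_⟩⟩
      have : x = y + ⌊x⌋ := (Int.fract_add_floor x).symm
      conv_lhs => rw [this]
      push_cast
      ring
    have h2 : ‖Sh b D K (b * x)‖ ≤ Wt b S K (j % b^K) := by
      refine (ih (b * x)).trans (le_of_eq ?_)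
      congr 1
      rw [hfr]
      have h3 : (b:ℝ)^K * ((b:ℝ) * y - (⌊(b:ℝ) * y⌋₊ : ℕ)) = (b:ℝ)^(K+1) * y - ((b^K * ⌊(b:ℝ) * y⌋₊ : ℕ) : ℝ) := by
        push_cast; ring
      rw [h3, Nat.floor_sub_natCast, ← hj]
      have := Nat.div_add_mod j (b^K)
      rw [hq] at this
      have h5 : ∀ r q : ℕ, q + r = j → j - q = r := fun r q h => by omega
      exact h5 _ _ this
    have h0 : 0 ≤ S (j / b^K) := (norm_nonneg _).trans h1
    exact mul_le_mul h1 h2 (norm_nonneg _) h0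

/-- **sums over points which are not too dense modulo one** -/
theorem pts {b : ℕ} (hb : 2 ≤ b) {D : Finset ℕ} (hD : ∀ d ∈ D, d < b) {S : ℕ → ℝ}
    (hS : ∀ r < b, ∀ x : ℝ, (r:ℝ) / b ≤ x → x ≤ ((r:ℝ) + 1) / b → ‖ph D x‖ ≤ S r) (K : ℕ)
    {ι : Type*} (I : Finset ι) (x : ι → ℝ) (M : ℝ)
    (hM : ∀ j : ℕ, ((I.filter (fun i => ⌊(b:ℝ)^K * Int.fract (x i)⌋₊ = j)).card : ℝ) ≤ M) :
    ∑ i ∈ I, ‖Sh b D K (x i)‖ ≤ M * (∑ r ∈ range b, S r) ^ K := by
  classical
  have hb0 : (0:ℝ) < b := by exact_mod_cast (by omega : 0 < b)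
  have hS0 : ∀ r < b, 0 ≤ S r := by
    intro r hr
    refine (norm_nonneg _).trans (hS r hr ((r:ℝ)/b) le_rfl ?_)
    apply div_le_div_of_nonneg_right (by linarith) hb0.le
  have hmap : ∀ i ∈ I, ⌊(b:ℝ)^K * Int.fract (x i)⌋₊ ∈ range (b^K) := by
    intro i _
    rw [mem_range, Nat.floor_lt (by have := Int.fract_nonneg (x i); positivity)]
    have := Int.fract_lt_one (x i)
    have h2 : (0:ℝ) < (b:ℝ)^K := by positivity
    push_cast
    nlinarith
  calc ∑ i ∈ I, ‖Sh b D K (x i)‖ ≤ ∑ i ∈ I, Wt b S K ⌊(b:ℝ)^K * Int.fract (x i)⌋₊ :=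
        sum_le_sum fun i _ => Sh_Wt hb hD hS K (x i)
    _ = ∑ j ∈ range (b^K), ∑ i ∈ I.filter (fun i => ⌊(b:ℝ)^K * Int.fract (x i)⌋₊ = j), Wt b S K ⌊(b:ℝ)^K * Int.fract (x i)⌋₊ :=
        (sum_fiberwise_of_maps_to hmap _).symm
    _ = ∑ j ∈ range (b^K), ((I.filter (fun i => ⌊(b:ℝ)^K * Int.fract (x i)⌋₊ = j)).card : ℝ) * Wt b S K j := by
        refine sum_congr rfl fun j _ => ?_
        rw [← nsmul_eq_mul, ← sum_const]
        refine sum_congr rfl fun i hi => ?_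
        rw [mem_filter] at hi
        rw [hi.2]
    _ ≤ ∑ j ∈ range (b^K), M * Wt b S K j := by
        refine sum_le_sum fun j hj => ?_
        apply mul_le_mul_of_nonneg_right (hM j)
        exact Wt_nonneg hb hS0 K j (mem_range.mp hj)
    _ = _ := by rw [← mul_sum, Wt_sum hb]

end Pool.Agent.H31.ZD
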