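import Mathlib
import Pool.Agent.H31.ZD.Dg

/-!
# Digit sets with few runs
-/

set_option autoImplicit false

open Finset

namespace Pool.Agent.H31.ZD

/-- the number of runs of consecutive digits of `D` -/
def runs (D : Finset ℕ) : ℕ := (D.filter (fun d => d + 1 ∉ D)).card

lemma runs_pos {D : Finset ℕ} (h : D.Nonempty) : 1 ≤ runs D := by
  unfold runs
  rw [Nat.one_le_iff_ne_zero, Finset.card_ne_zero]
  refine ⟨D.max' h, ?_⟩
  rw [mem_filter]
  refine ⟨D.max'_mem h, fun h1 => ?_⟩
  have := D.le_max' _ h1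
  omega

lemma ph_runs (D : Finset ℕ) (x : ℝ) : ‖ph D x‖ * ‖1 - ee x‖ ≤ 2 * runs D := by
  classical
  rw [← norm_mul]
  set E := D.map ⟨fun d => d + 1, fun a b h => by simpa using h⟩ with hE
  have hEc : E.card = D.card := card_map _
  have h1 : ph D x * (1 - ee x) = ∑ d ∈ D, ee (d * x) - ∑ d ∈ E, ee (d * x) := by
    rw [mul_sub, mul_one]
    congr 1
    rw [hE, sum_map]
    unfold ph
    rw [sum_mul]
    refine sum_congr rfl fun d _ => ?_
    rw [← ee_add]
    have e1 : (d:ℝ) * x + x = ((d + 1 : ℕ) : ℝ) * x := by push_cast; ring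
    rw [e1]
    rfl
  have h2 : ∑ d ∈ D, ee (d * x) - ∑ d ∈ E, ee (d * x) = ∑ d ∈ D \ E, ee (d * x) - ∑ d ∈ E \ D, ee (d * x) := by
    have a1 := sum_inter_add_sum_sdiff D E (fun d : ℕ => ee (d * x))
    have a2 := sum_inter_add_sum_sdiff E D (fun d : ℕ => ee (d * x))
    rw [← a1, ← a2, inter_comm E D]
    ring
  have h3 : (E \ D).card = runs D := by
    unfold runs
    rw [hE]
    have : (D.map ⟨fun d => d + 1, fun a b h => by simpa using h⟩) \ D =
        (D.filter (fun d => d + 1 ∉ D)).map ⟨fun d => d + 1, fun a b h => by simpa using h⟩ := by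
      ext n
      rw [mem_sdiff, mem_map, mem_map]
      constructor
      · rintro ⟨⟨d, hd, rfl⟩, h⟩
        exact ⟨d, mem_filter.mpr ⟨hd, h⟩, rfl⟩
      · rintro ⟨d, hd, rfl⟩
        rw [mem_filter] at hd
        exact ⟨⟨d, hd.1, rfl⟩, hd.2⟩
    rw [this, card_map]
  have h4 : (D \ E).card = runs D := by
    have a1 := card_inter_add_card_sdiff D E
    have a2 := card_inter_add_card_sdiff E D
    rw [inter_comm E D] at a2
    omega
  rw [h1, h2]
  refine (norm_sub_le _ _).trans ?_
  have b1 : ‖∑ d ∈ D \ E, ee (d * x)‖ ≤ runs D := by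
    refine (norm_sum_le _ _).trans ?_
    simp [norm_ee, h4]
  have b2 : ‖∑ d ∈ E \ D, ee (d * x)‖ ≤ runs D := by
    refine (norm_sum_le _ _).trans ?_
    simp [norm_ee, h3]
  linarith

lemma one_sub_ee {x : ℝ} (h0 : 0 ≤ x) (h1 : x ≤ 1) : 4 * min x (1 - x) ≤ ‖1 - ee x‖ := by
  have e1 : ‖1 - ee x‖ = 2 * |Real.sin (Real.pi * x)| := by
    have h := Complex.norm_exp_I_mul_ofReal_sub_one (2 * Real.pi * x)
    rw [norm_sub_rev]
    unfold ee
    rw [mul_comm (((2 * Real.pi * x : ℝ) : ℂ)) Complex.I, h, Real.norm_eq_abs, abs_mul, abs_of_pos (by norm_num : (0:ℝ) < 2)]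
    congr 3
    ring
  rw [e1]
  have hs0 : 0 ≤ Real.sin (Real.pi * x) := Real.sin_nonneg_of_nonneg_of_le_pi (by positivity) (by nlinarith [Real.pi_pos])
  rw [abs_of_nonneg hs0]
  rcases le_total x (1/2) with h | h
  · have h2 := Real.mul_le_sin (x := Real.pi * x) (by positivity) (by nlinarith [Real.pi_pos])
    have h3 : 2 / Real.pi * (Real.pi * x) = 2 * x := by field_simp
    rw [h3] at h2
    have := min_le_left x (1 - x)
    linarith
  · have h2 := Real.mul_le_sin (x := Real.pi * (1 - x)) (by nlinarith [Real.pi_pos]) (by nlinarith [Real.pi_pos])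
    have h3 : 2 / Real.pi * (Real.pi * (1 - x)) = 2 * (1 - x) := by field_simp
    rw [h3] at h2
    have h4 : Real.sin (Real.pi * (1 - x)) = Real.sin (Real.pi * x) := by
      rw [mul_sub, mul_one, Real.sin_pi_sub]
    rw [h4] at h2
    have := min_le_right x (1 - x)
    linarith

/-- **the bound for digit sets with few runs** -/
theorem flat_runs {b : ℕ} (hb : 2 ≤ b) {D : Finset ℕ} (hD : ∀ d ∈ D, d < b) (hne : D.Nonempty) :
    ∃ S : ℕ → ℝ, (∀ r < b, ∀ x : ℝ, (r:ℝ) / b ≤ x → x ≤ ((r:ℝ) + 1) / b → ‖ph D x‖ ≤ S r) ∧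
      ∑ r ∈ range b, S r ≤ runs D * (b * (3 + Real.log b)) := by
  have hb0 : (0:ℝ) < b := by exact_mod_cast (by omega : 0 < b)
  have hb1 : (1:ℝ) ≤ b := by exact_mod_cast (by omega : 1 ≤ b)
  have hDb : (D.card:ℝ) ≤ b := by
    have : D ⊆ range b := fun d hd => mem_range.mpr (hD d hd)
    have := card_le_card this
    rw [card_range] at this
    exact_mod_cast this
  have hR : (1:ℝ) ≤ runs D := by exact_mod_cast runs_pos hne
  refine ⟨fun r => (if r = 0 ∨ r = b - 1 then (runs D * b : ℝ) else 0) + runs D * b * (if 1 ≤ r ∧ r + 2 ≤ b then 1 / (2 * (r:ℝ)) + 1 / (2 * ((b:ℝ) - 1 - r)) else 0), ?_, ?_⟩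
  · intro r hr x hx1 hx2
    simp only
    by_cases h : r = 0 ∨ r = b - 1
    · rw [if_pos h]
      have h2 : ¬ (1 ≤ r ∧ r + 2 ≤ b) := by omega
      rw [if_neg h2, mul_zero, add_zero]
      refine (ph_norm_le D x).trans (hDb.trans ?_)
      nlinarith
    · rw [if_neg h]
      have h2 : 1 ≤ r ∧ r + 2 ≤ b := by omega
      rw [if_pos h2, zero_add]
      have hr1 : (1:ℝ) ≤ r := by exact_mod_cast h2.1
      have hr2 : (r:ℝ) + 2 ≤ b := by exact_mod_cast h2.2
      have hx0 : 0 ≤ x := le_trans (by positivity) hx1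
      rw [div_le_iff₀ hb0] at hx1
      rw [le_div_iff₀ hb0] at hx2
      have hxl1 : x ≤ 1 := by nlinarith
      have h3 := one_sub_ee hx0 hxl1
      have h4 := ph_runs D x
      set m := min x (1 - x) with hm
      have hxp : 0 < x := by nlinarith
      have hx1p : 0 < 1 - x := by nlinarith
      have hm0 : 0 < m := lt_min hxp hx1p
      have h5 : ‖ph D x‖ ≤ runs D / (2 * m) := by
        rw [le_div_iff₀ (by positivity)]
        nlinarith [norm_nonneg (ph D x)]
      refine h5.trans ?_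
      have h6 : 1 / (2 * m) ≤ b * (1 / (2 * (r:ℝ)) + 1 / (2 * ((b:ℝ) - 1 - r))) := by
        have a0 : (0:ℝ) < (b:ℝ) - 1 - r := by linarith
        have a3 : (0:ℝ) < r := by linarith
        rcases min_choice x (1 - x) with h7 | h7
        · rw [hm, h7]
          have a1 : 1 / (2 * x) ≤ b * (1 / (2 * (r:ℝ))) := by
            rw [mul_one_div, div_le_div_iff₀ (by positivity) (by positivity)]
            nlinarith
          have a2 : 0 ≤ b * (1 / (2 * ((b:ℝ) - 1 - r))) := by positivity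
          rw [mul_add]; linarith
        · rw [hm, h7]
          have a1 : 1 / (2 * (1 - x)) ≤ b * (1 / (2 * ((b:ℝ) - 1 - r))) := by
            rw [mul_one_div, div_le_div_iff₀ (by positivity) (by positivity)]
            nlinarith
          have a2 : 0 ≤ b * (1 / (2 * (r:ℝ))) := by positivity
          rw [mul_add]; linarith
      calc (runs D : ℝ) / (2 * m) = runs D * (1 / (2 * m)) := by ring
        _ ≤ runs D * (b * (1 / (2 * (r:ℝ)) + 1 / (2 * ((b:ℝ) - 1 - r)))) := mul_le_mul_of_nonneg_left h6 (by linarith)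
        _ = _ := by ring
  · rw [sum_add_distrib, ← mul_sum]
    have h1 : ∑ r ∈ range b, (if r = 0 ∨ r = b - 1 then (runs D * b : ℝ) else 0) ≤ 2 * (runs D * b) := by
      rw [← sum_filter, sum_const, nsmul_eq_mul]
      have : ((range b).filter (fun r => r = 0 ∨ r = b - 1)).card ≤ 2 := by
        have hs : (range b).filter (fun r => r = 0 ∨ r = b - 1) ⊆ {0, b - 1} := by
          intro r hr
          rw [mem_filter] at hr
          rw [mem_insert, mem_singleton]
          exact hr.2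
        exact (card_le_card hs).trans card_le_two
      have h2 : (((range b).filter (fun r => r = 0 ∨ r = b - 1)).card : ℝ) ≤ 2 := by exact_mod_cast this
      exact mul_le_mul_of_nonneg_right h2 (by positivity)
    have h2 : ∑ r ∈ range b, (if 1 ≤ r ∧ r + 2 ≤ b then 1 / (2 * (r:ℝ)) + 1 / (2 * ((b:ℝ) - 1 - r)) else 0) ≤ 1 + Real.log b := by
      rw [← sum_filter]
      have e1 : (range b).filter (fun r => 1 ≤ r ∧ r + 2 ≤ b) = Icc 1 (b - 2) := by
        ext r
        rw [mem_filter, mem_range, mem_Icc]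
        omega
      rw [e1, sum_add_distrib]
      have e2 : ∑ r ∈ Icc 1 (b-2), 1 / (2 * ((b:ℝ) - 1 - r)) = ∑ r ∈ Icc 1 (b-2), 1 / (2 * (r:ℝ)) := by
        refine sum_bij' (fun r _ => b - 1 - r) (fun r _ => b - 1 - r) ?_ ?_ ?_ ?_ ?_
        · intro r hr; rw [mem_Icc] at hr ⊢; omega
        · intro r hr; rw [mem_Icc] at hr ⊢; omega
        · intro r hr; rw [mem_Icc] at hr; omega
        · intro r hr; rw [mem_Icc] at hr; omega
        · intro r hr
          rw [mem_Icc] at hr
          congr 2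
          rw [Nat.cast_sub (by omega), Nat.cast_sub (by omega)]
          push_cast
          ring
      rw [e2]
      have e3 : ∑ r ∈ Icc 1 (b-2), 1 / (2 * (r:ℝ)) + ∑ r ∈ Icc 1 (b-2), 1 / (2 * (r:ℝ)) = ∑ r ∈ Icc 1 (b-2), (r:ℝ)⁻¹ := by
        rw [← sum_add_distrib]
        refine sum_congr rfl fun r hr => ?_
        rw [mem_Icc] at hr
        have : (r:ℝ) ≠ 0 := by
          have : r ≠ 0 := by omega
          exact_mod_cast this
        field_simp
        norm_num
      rw [e3]
      have e4 : ∑ r ∈ Icc 1 (b-2), (r:ℝ)⁻¹ ≤ ∑ r ∈ Icc 1 b, (r:ℝ)⁻¹ := by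
        apply sum_le_sum_of_subset_of_nonneg
        · intro r hr; rw [mem_Icc] at hr ⊢; omega
        · intro r _ _; positivity
      refine e4.trans ?_
      have e5 := harmonic_le_one_add_log b
      rw [harmonic_eq_sum_Icc] at e5
      push_cast at e5
      exact e5
    have h3 : (runs D * b : ℝ) * ∑ r ∈ range b, (if 1 ≤ r ∧ r + 2 ≤ b then 1 / (2 * (r:ℝ)) + 1 / (2 * ((b:ℝ) - 1 - r)) else 0) ≤ (runs D * b) * (1 + Real.log b) :=
      mul_le_mul_of_nonneg_left h2 (by positivity)
    calc _ ≤ 2 * (runs D * b) + (runs D * b) * (1 + Real.log b) := add_le_add h1 h3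
      _ = _ := by ring

end Pool.Agent.H31.ZD
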