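import Mathlib
import Pool.Agent.H31.ZD.Dg

/-!
# Spacing of the logarithms of reduced fractions and sums of the block exponential sums over them
-/

set_option autoImplicit false

open Finset

namespace Pool.Agent.H31.ZD

/-- the frequency of a pair -/
noncomputable def fq (c : ℝ) (p : ℕ × ℕ) : ℝ := c * (Real.log p.2 - Real.log p.1)

lemma log_sep' {p q p' q' : ℕ} {U V : ℝ} (hp : 1 ≤ p) (hq : 1 ≤ q) (hp' : 1 ≤ p') (hq' : 1 ≤ q')
    (h1 : (p':ℝ) ≤ U) (h2 : (q:ℝ) ≤ V) (h : q' * p < q * p') :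
    1 / (U * V) ≤ (Real.log q - Real.log p) - (Real.log q' - Real.log p') := by
  have hp0 : (0:ℝ) < p := by exact_mod_cast hp
  have hq0 : (0:ℝ) < q := by exact_mod_cast hq
  have hp0' : (0:ℝ) < p' := by exact_mod_cast hp'
  have hq0' : (0:ℝ) < q' := by exact_mod_cast hq'
  have e : (Real.log q - Real.log p) - (Real.log q' - Real.log p') = Real.log ((q * p') / (q' * p)) := by
    rw [Real.log_div (by positivity) (by positivity), Real.log_mul hq0.ne' hp0'.ne', Real.log_mul hq0'.ne' hp0.ne']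
    ring
  rw [e]
  have h3 := Real.one_sub_inv_le_log_of_pos (x := ((q:ℝ) * p') / (q' * p)) (by positivity)
  refine le_trans ?_ h3
  rw [inv_div]
  have h4 : (q':ℝ) * p + 1 ≤ q * p' := by exact_mod_cast h
  have h5 : 1 - (q':ℝ) * p / (q * p') = (q * p' - q' * p) / (q * p') := by field_simp
  rw [h5]
  have h6 : (q:ℝ) * p' ≤ U * V := by
    rw [mul_comm U V]
    exact mul_le_mul h2 h1 hp0'.le (hq0.le.trans h2)
  calc 1 / (U * V) ≤ 1 / (q * p') := one_div_le_one_div_of_le (by positivity) h6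
    _ ≤ _ := by
      apply div_le_div_of_nonneg_right (by linarith) (by positivity)

lemma log_sep {p q : ℕ × ℕ} {U V : ℝ} (hp : Nat.Coprime p.1 p.2) (hq : Nat.Coprime q.1 q.2)
    (hp1 : 1 ≤ p.1) (hp2 : 1 ≤ p.2) (hq1 : 1 ≤ q.1) (hq2 : 1 ≤ q.2)
    (h1 : (p.1:ℝ) ≤ U) (h2 : (p.2:ℝ) ≤ V) (h3 : (q.1:ℝ) ≤ U) (h4 : (q.2:ℝ) ≤ V) (hne : p ≠ q) :
    1 / (U * V) ≤ |(Real.log p.2 - Real.log p.1) - (Real.log q.2 - Real.log q.1)| := by
  rcases lt_trichotomy (q.2 * p.1) (p.2 * q.1) with h | h | h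
  · exact (log_sep' hp1 hp2 hq1 hq2 h3 h2 h).trans (le_abs_self _)
  · exfalso
    apply hne
    -- equal fractions are equal
    have a1 : p.1 ∣ q.1 := by
      have : p.1 ∣ p.2 * q.1 := ⟨q.2, by rw [← h]; ring⟩
      exact hp.dvd_of_dvd_mul_left this
    have a2 : q.1 ∣ p.1 := by
      have : q.1 ∣ q.2 * p.1 := ⟨p.2, by rw [h]; ring⟩
      exact hq.dvd_of_dvd_mul_left this
    have a3 : p.1 = q.1 := Nat.dvd_antisymm a1 a2
    rw [a3] at h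
    exact Prod.ext a3 (Nat.eq_of_mul_eq_mul_right (by omega) h).symm
  · have := log_sep' hq1 hq2 hp1 hp2 h1 h4 h
    refine this.trans ?_
    rw [abs_sub_comm]
    exact le_abs_self _

/-- the number of points of a dyadic block modulo one in a `b`-adic interval -/
lemma blk_count {c : ℝ} (hc : 0 < c) (i j K : ℕ) {b : ℕ} (hb : 2 ≤ b) (I : Finset (ℕ × ℕ))
    (hI : ∀ p ∈ I, Nat.Coprime p.1 p.2 ∧ 2^i ≤ p.1 ∧ p.1 < 2^(i+1) ∧ 2^j ≤ p.2 ∧ p.2 < 2^(j+1)) (m : ℕ) :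
    ((I.filter (fun p => ⌊(b:ℝ)^K * Int.fract (fq c p)⌋₊ = m)).card : ℝ) ≤
      (2 * c + 2) * (4 * 2^(i+j) / (c * b^K) + 1) := by
  have hb0 : (0:ℝ) < b := by exact_mod_cast (by omega : 0 < b)
  have hbK : (0:ℝ) < (b:ℝ)^K := by positivity
  set η : ℝ := c / (4 * 2^(i+j)) with hη
  have hη0 : 0 < η := by positivity
  set A : ℝ := c * ((j:ℝ) - i - 1) * Real.log 2 with hA
  have hl2 := Real.log_two_lt_d9
  have hl20 : 0 < Real.log 2 := Real.log_pos (by norm_num)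
  set F : ℕ × ℕ → ℤ × ℕ := fun p => (⌊fq c p⌋, ⌊(Int.fract (fq c p) - m / (b:ℝ)^K) / η⌋₊) with hF
  set J := I.filter (fun p => ⌊(b:ℝ)^K * Int.fract (fq c p)⌋₊ = m) with hJ
  have hlog : ∀ (n k : ℕ), 2^k ≤ n → n < 2^(k+1) → (k:ℝ) * Real.log 2 ≤ Real.log n ∧ Real.log n ≤ (k + 1) * Real.log 2 := by
    intro n k h1 h2
    have hn : (0:ℝ) < n := by
      have : 0 < 2^k := by positivity
      exact_mod_cast (by omega : 0 < n)
    have a1 : ((2:ℝ)^k) ≤ n := by exact_mod_cast h1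
    have a2 : (n:ℝ) ≤ (2:ℝ)^(k+1) := by exact_mod_cast h2.le
    have b1 := Real.log_le_log (by positivity) a1
    have b2 := Real.log_le_log hn a2
    rw [Real.log_pow] at b1 b2
    push_cast at b2
    exact ⟨b1, b2⟩
  have hx : ∀ p ∈ J, A ≤ fq c p ∧ fq c p ≤ A + 2 * c * Real.log 2 := by
    intro p hp
    rw [hJ, mem_filter] at hp
    obtain ⟨_, h1, h2, h3, h4⟩ := hI p hp.1
    obtain ⟨a1, a2⟩ := hlog _ _ h1 h2
    obtain ⟨b1, b2⟩ := hlog _ _ h3 h4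
    unfold fq
    rw [hA]
    constructor
    · have : ((j:ℝ) - i - 1) * Real.log 2 ≤ Real.log p.2 - Real.log p.1 := by linarith
      calc c * ((j:ℝ) - i - 1) * Real.log 2 = c * (((j:ℝ) - i - 1) * Real.log 2) := by ring
        _ ≤ _ := mul_le_mul_of_nonneg_left this hc.le
    · have : Real.log p.2 - Real.log p.1 ≤ ((j:ℝ) - i + 1) * Real.log 2 := by linarith
      calc _ ≤ c * (((j:ℝ) - i + 1) * Real.log 2) := mul_le_mul_of_nonneg_left this hc.le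
        _ = _ := by ring
  have hfr : ∀ p ∈ J, 0 ≤ Int.fract (fq c p) - m / (b:ℝ)^K ∧ Int.fract (fq c p) - m / (b:ℝ)^K < 1 / (b:ℝ)^K := by
    intro p hp
    rw [hJ, mem_filter] at hp
    have hf0 := Int.fract_nonneg (fq c p)
    have h1 := Nat.floor_le (a := (b:ℝ)^K * Int.fract (fq c p)) (by positivity)
    have h2 := Nat.lt_floor_add_one ((b:ℝ)^K * Int.fract (fq c p))
    rw [hp.2] at h1 h2
    constructor
    · rw [sub_nonneg, div_le_iff₀ hbK]; linarith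
    · rw [sub_lt_iff_lt_add, ← add_div, lt_div_iff₀ hbK]; linarith
  have hmaps : ∀ p ∈ J, F p ∈ (Finset.Icc ⌊A⌋ ⌊A + 2 * c * Real.log 2⌋) ×ˢ (range (⌊1 / (b:ℝ)^K / η⌋₊ + 1)) := by
    intro p hp
    rw [mem_product, mem_Icc, mem_range]
    obtain ⟨h1, h2⟩ := hx p hp
    obtain ⟨h3, h4⟩ := hfr p hp
    refine ⟨⟨Int.floor_le_floor h1, Int.floor_le_floor h2⟩, ?_⟩
    have : ⌊(Int.fract (fq c p) - m / (b:ℝ)^K) / η⌋₊ ≤ ⌊1 / (b:ℝ)^K / η⌋₊ := by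
      apply Nat.floor_le_floor
      exact div_le_div_of_nonneg_right h4.le hη0.le
    simp only [hF]
    omega
  have hinj : Set.InjOn F (J : Set (ℕ × ℕ)) := by
    intro p hp q hq hpq
    rw [mem_coe] at hp hq
    by_contra hne
    have hpI := hI p (by rw [hJ, mem_filter] at hp; exact hp.1)
    have hqI := hI q (by rw [hJ, mem_filter] at hq; exact hq.1)
    obtain ⟨hc1, p1, p2, p3, p4⟩ := hpI
    obtain ⟨hc2, q1, q2, q3, q4⟩ := hqI
    have t1 : 0 < 2^i := by positivity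
    have t2 : 0 < 2^j := by positivity
    have hsep := log_sep (U := 2^(i+1)) (V := 2^(j+1)) hc1 hc2 (by omega) (by omega) (by omega) (by omega)
      (by exact_mod_cast p2.le) (by exact_mod_cast p4.le) (by exact_mod_cast q2.le) (by exact_mod_cast q4.le) hne
    simp only [hF, Prod.mk.injEq] at hpq
    obtain ⟨g1, g2⟩ := hpq
    obtain ⟨f1, f2⟩ := hfr p hp
    obtain ⟨f3, f4⟩ := hfr q hq
    have u1 := Nat.floor_le (a := (Int.fract (fq c p) - m / (b:ℝ)^K) / η) (by positivity)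
    have u2 := Nat.lt_floor_add_one ((Int.fract (fq c p) - m / (b:ℝ)^K) / η)
    have u3 := Nat.floor_le (a := (Int.fract (fq c q) - m / (b:ℝ)^K) / η) (by positivity)
    have u4 := Nat.lt_floor_add_one ((Int.fract (fq c q) - m / (b:ℝ)^K) / η)
    rw [← g2] at u3 u4
    have v1 : |Int.fract (fq c p) - Int.fract (fq c q)| < η := by
      have e1 : Int.fract (fq c p) - Int.fract (fq c q) =
        ((Int.fract (fq c p) - m / (b:ℝ)^K) / η - (Int.fract (fq c q) - m / (b:ℝ)^K) / η) * η := by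
        field_simp; ring
      rw [e1, abs_mul, abs_of_pos hη0]
      have : |(Int.fract (fq c p) - m / (b:ℝ)^K) / η - (Int.fract (fq c q) - m / (b:ℝ)^K) / η| < 1 := by
        rw [abs_lt]; constructor <;> linarith
      nlinarith
    have v2 : fq c p - fq c q = Int.fract (fq c p) - Int.fract (fq c q) := by
      have w1 := Int.fract_add_floor (fq c p)
      have w2 := Int.fract_add_floor (fq c q)
      rw [← g1] at w2
      linarith
    rw [← v2] at v1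
    have v3 : fq c p - fq c q = c * ((Real.log p.2 - Real.log p.1) - (Real.log q.2 - Real.log q.1)) := by
      unfold fq; ring
    rw [v3, abs_mul, abs_of_pos hc] at v1
    have v4 : η = c * (1 / ((2:ℝ)^(i+1) * 2^(j+1))) := by
      rw [hη]
      have : (2:ℝ)^(i+1) * 2^(j+1) = 4 * 2^(i+j) := by rw [pow_succ, pow_succ, pow_add]; ring
      rw [this]
      ring
    rw [v4] at v1
    have := mul_le_mul_of_nonneg_left hsep hc.le
    linarith
  have hcard := card_le_card_of_injOn F (fun p hp => hmaps p hp) hinj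
  rw [card_product, Int.card_Icc, card_range] at hcard
  have hcr : (J.card : ℝ) ≤ ((⌊A + 2 * c * Real.log 2⌋ + 1 - ⌊A⌋).toNat : ℝ) * ((⌊1 / (b:ℝ)^K / η⌋₊ : ℝ) + 1) := by
    exact_mod_cast hcard
  refine hcr.trans ?_
  have k1 : ((⌊A + 2 * c * Real.log 2⌋ + 1 - ⌊A⌋).toNat : ℝ) ≤ 2 * c + 2 := by
    have z0 : ⌊A⌋ ≤ ⌊A + 2 * c * Real.log 2⌋ := Int.floor_le_floor (by nlinarith)
    have z1 : (((⌊A + 2 * c * Real.log 2⌋ + 1 - ⌊A⌋).toNat : ℤ) : ℝ) = ((⌊A + 2 * c * Real.log 2⌋ + 1 - ⌊A⌋ : ℤ) : ℝ) := by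
      rw [Int.toNat_of_nonneg (by omega)]
    have z2 : ((⌊A + 2 * c * Real.log 2⌋ + 1 - ⌊A⌋).toNat : ℝ) = ((⌊A + 2 * c * Real.log 2⌋ + 1 - ⌊A⌋ : ℤ) : ℝ) := by
      rw [← z1]; norm_cast
    rw [z2]
    push_cast
    have z3 := Int.floor_le (A + 2 * c * Real.log 2)
    have z4 := Int.lt_floor_add_one A
    nlinarith
  have k2 : (⌊1 / (b:ℝ)^K / η⌋₊ : ℝ) + 1 ≤ 4 * 2^(i+j) / (c * b^K) + 1 := by
    have z1 := Nat.floor_le (a := 1 / (b:ℝ)^K / η) (by positivity)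
    have z2 : 1 / (b:ℝ)^K / η = 4 * 2^(i+j) / (c * b^K) := by
      rw [hη]; field_simp
    rw [z2] at z1
    linarith [z2 ▸ z1]
  apply mul_le_mul k1 k2 (by positivity) (by positivity)

/-- the sum over a dyadic block -/
lemma blk_sum {c : ℝ} (hc : 0 < c) {b : ℕ} (hb : 2 ≤ b) {D : Finset ℕ} (hD : ∀ d ∈ D, d < b) {S : ℕ → ℝ}
    (hS : ∀ r < b, ∀ x : ℝ, (r:ℝ) / b ≤ x → x ≤ ((r:ℝ) + 1) / b → ‖ph D x‖ ≤ S r)
    {κ : ℝ} (hκ0 : 0 ≤ κ) (hκ1 : κ ≤ 1) (hSum : ∑ r ∈ range b, S r ≤ D.card * (b:ℝ) ^ κ)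
    (i j L : ℕ) (I : Finset (ℕ × ℕ))
    (hI : ∀ p ∈ I, Nat.Coprime p.1 p.2 ∧ 2^i ≤ p.1 ∧ p.1 < 2^(i+1) ∧ 2^j ≤ p.2 ∧ p.2 < 2^(j+1)) :
    ∑ p ∈ I, ‖Sh b D L (fq c p)‖ ≤ ((2 * c + 2) * (4 / c + 1) * b) * (D.card:ℝ)^L *
      (((2:ℝ)^(i+j)) ^ κ + (2:ℝ)^(i+j) * ((b:ℝ)^L) ^ (κ - 1)) := by
  have hb1 : (1:ℝ) < b := by exact_mod_cast (by omega : 1 < b)
  have hb0 : (0:ℝ) < b := by linarith
  have hS0 : 0 ≤ ∑ r ∈ range b, S r := by
    refine sum_nonneg fun r hr => ?_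
    refine (norm_nonneg _).trans (hS r (mem_range.mp hr) ((r:ℝ)/b) le_rfl ?_)
    apply div_le_div_of_nonneg_right (by linarith) hb0.le
  have key : ∀ K, K ≤ L → ∑ p ∈ I, ‖Sh b D L (fq c p)‖ ≤
      (2 * c + 2) * (4 * 2^(i+j) / (c * b^K) + 1) * ((D.card:ℝ)^L * ((b:ℝ)^K) ^ κ) := by
    intro K hK
    have h1 := pts hb hD hS K I (fq c) _ (blk_count hc i j K hb I hI)
    calc ∑ p ∈ I, ‖Sh b D L (fq c p)‖ ≤ ∑ p ∈ I, ‖Sh b D K (fq c p)‖ * (D.card:ℝ)^(L-K) :=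
          sum_le_sum fun p _ => Sh_le hb hD K L _ hK
      _ = (∑ p ∈ I, ‖Sh b D K (fq c p)‖) * (D.card:ℝ)^(L-K) := by rw [sum_mul]
      _ ≤ ((2 * c + 2) * (4 * 2^(i+j) / (c * b^K) + 1) * (∑ r ∈ range b, S r)^K) * (D.card:ℝ)^(L-K) :=
          mul_le_mul_of_nonneg_right h1 (by positivity)
      _ ≤ ((2 * c + 2) * (4 * 2^(i+j) / (c * b^K) + 1) * (D.card * (b:ℝ) ^ κ)^K) * (D.card:ℝ)^(L-K) := by
          apply mul_le_mul_of_nonneg_right _ (by positivity)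
          apply mul_le_mul_of_nonneg_left _ (by positivity)
          exact pow_le_pow_left₀ hS0 hSum K
      _ = _ := by
          rw [mul_pow]
          have e1 : (D.card:ℝ)^L = (D.card:ℝ)^K * (D.card:ℝ)^(L-K) := by rw [← pow_add]; congr 1; omega
          have e2 : ((b:ℝ)^κ)^K = ((b:ℝ)^K)^κ := by
            rw [← Real.rpow_natCast, ← Real.rpow_mul hb0.le, mul_comm, Real.rpow_mul hb0.le, Real.rpow_natCast]
          rw [e1, e2]
          ring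
  set N : ℝ := (2:ℝ)^(i+j) with hN
  have hN1 : 1 ≤ N := one_le_pow₀ (by norm_num)
  have hN0 : 0 < N := by linarith
  have hbL : (0:ℝ) < (b:ℝ)^L := by positivity
  have hbL1 : (1:ℝ) ≤ (b:ℝ)^L := one_le_pow₀ hb1.le
  have haL : (0:ℝ) ≤ (D.card:ℝ)^L := by positivity
  rcases le_or_gt N ((b:ℝ)^L) with h | h
  · -- short blocks
    obtain ⟨K, hK1, hK2, hK3⟩ : ∃ K, K ≤ L ∧ N ≤ (b:ℝ)^K ∧ (b:ℝ)^K ≤ b * N := by
      have hNn : 2^(i+j) ≤ b^L := by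
        have : ((2^(i+j) : ℕ) : ℝ) ≤ ((b^L : ℕ) : ℝ) := by push_cast; exact h
        exact_mod_cast this
      refine ⟨Nat.clog b (2^(i+j)), ?_, ?_, ?_⟩
      · exact (Nat.clog_le_iff_le_pow (by omega)).mpr hNn
      · have := Nat.le_pow_clog (b := b) (by omega) (2^(i+j))
        rw [hN]; exact_mod_cast this
      · rcases Nat.eq_zero_or_pos (i+j) with h0 | h0
        · rw [h0, pow_zero, Nat.clog_one_right, pow_zero, hN, h0, pow_zero]; linarith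
        · have h1 : 1 < 2^(i+j) := Nat.one_lt_two_pow (by omega)
          have h2 := Nat.pow_pred_clog_lt_self (b := b) (by omega) h1
          have h3 : 0 < Nat.clog b (2^(i+j)) := Nat.clog_pos (by omega) h1
          have h4 : b ^ Nat.clog b (2^(i+j)) = b * b ^ (Nat.clog b (2^(i+j))).pred := by
            rw [← pow_succ']; congr 1
            exact (Nat.succ_pred_eq_of_pos h3).symm
          have h5 : b ^ Nat.clog b (2^(i+j)) ≤ b * 2^(i+j) := by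
            rw [h4]; exact Nat.mul_le_mul_left _ h2.le
          rw [hN]; exact_mod_cast h5
    refine (key K hK1).trans ?_
    have hbK : (0:ℝ) < (b:ℝ)^K := by positivity
    have k1 : 4 * N / (c * b^K) + 1 ≤ 4 / c + 1 := by
      have : 4 * N / (c * b^K) ≤ 4 / c := by
        rw [div_le_div_iff₀ (by positivity) hc]
        nlinarith [mul_le_mul_of_nonneg_left hK2 (by positivity : 0 ≤ 4 * c)]
      linarith
    have k2 : ((b:ℝ)^K) ^ κ ≤ b * N ^ κ := by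
      calc ((b:ℝ)^K) ^ κ ≤ (b * N) ^ κ := Real.rpow_le_rpow hbK.le hK3 hκ0
        _ = (b:ℝ) ^ κ * N ^ κ := Real.mul_rpow hb0.le hN0.le
        _ ≤ b * N ^ κ := by
          apply mul_le_mul_of_nonneg_right _ (by positivity)
          calc (b:ℝ) ^ κ ≤ (b:ℝ) ^ (1:ℝ) := Real.rpow_le_rpow_of_exponent_le hb1.le hκ1
            _ = b := Real.rpow_one _
    have k3 : 0 ≤ N * ((b:ℝ)^L) ^ (κ - 1) := by positivity
    calc (2 * c + 2) * (4 * N / (c * b^K) + 1) * ((D.card:ℝ)^L * ((b:ℝ)^K) ^ κ)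
        ≤ (2 * c + 2) * (4 / c + 1) * ((D.card:ℝ)^L * (b * N ^ κ)) := by gcongr
      _ = ((2 * c + 2) * (4 / c + 1) * b) * (D.card:ℝ)^L * (N ^ κ) := by ring
      _ ≤ _ := by
        apply mul_le_mul_of_nonneg_left _ (by positivity)
        linarith
  · -- long blocks
    refine (key L le_rfl).trans ?_
    have k1 : 4 * N / (c * b^L) + 1 ≤ (4 / c + 1) * (N / (b:ℝ)^L) := by
      have e1 : 4 * N / (c * b^L) = (4 / c) * (N / (b:ℝ)^L) := by field_simp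
      have e2 : 1 ≤ N / (b:ℝ)^L := by rw [le_div_iff₀ hbL]; linarith
      rw [e1]; linarith
    have k2 : N / (b:ℝ)^L * ((b:ℝ)^L) ^ κ = N * ((b:ℝ)^L) ^ (κ - 1) := by
      rw [Real.rpow_sub hbL, Real.rpow_one]
      ring
    have k3 : 0 ≤ N ^ κ := by positivity
    have k4 : 0 ≤ N * ((b:ℝ)^L) ^ (κ - 1) := by positivity
    calc (2 * c + 2) * (4 * N / (c * b^L) + 1) * ((D.card:ℝ)^L * ((b:ℝ)^L) ^ κ)
        ≤ (2 * c + 2) * ((4 / c + 1) * (N / (b:ℝ)^L)) * ((D.card:ℝ)^L * ((b:ℝ)^L) ^ κ) := by gcongr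
      _ = (2 * c + 2) * (4 / c + 1) * (D.card:ℝ)^L * (N / (b:ℝ)^L * ((b:ℝ)^L) ^ κ) := by ring
      _ = (2 * c + 2) * (4 / c + 1) * (D.card:ℝ)^L * (N * ((b:ℝ)^L) ^ (κ - 1)) := by rw [k2]
      _ ≤ (2 * c + 2) * (4 / c + 1) * (D.card:ℝ)^L * (b * (N ^ κ + N * ((b:ℝ)^L) ^ (κ - 1))) := by
        apply mul_le_mul_of_nonneg_left _ (by positivity)
        nlinarith
      _ = _ := by ring

/-- **the key estimate: sums over reduced fractions** -/
theorem KL {c : ℝ} (hc : 0 < c) {b : ℕ} (hb : 2 ≤ b) {D : Finset ℕ} (hD : ∀ d ∈ D, d < b) {S : ℕ → ℝ}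
    (hS : ∀ r < b, ∀ x : ℝ, (r:ℝ) / b ≤ x → x ≤ ((r:ℝ) + 1) / b → ‖ph D x‖ ≤ S r)
    {κ s : ℝ} (hκ0 : 0 ≤ κ) (hκs : κ < s) (hs : s ≤ 1 / 2) (hSum : ∑ r ∈ range b, S r ≤ D.card * (b:ℝ) ^ κ) :
    ∃ C : ℝ, 0 < C ∧ ∀ (L : ℕ) (W : ℝ) (I : Finset (ℕ × ℕ)), 1 ≤ W →
      (∀ p ∈ I, Nat.Coprime p.1 p.2 ∧ 1 ≤ p.1 ∧ 1 ≤ p.2 ∧ W ≤ (p.1:ℝ) * p.2 ∧
        (p.1:ℝ) * p.2 ≤ ((b:ℝ)^L) ^ (1 + (s - κ) / 2)) →
      ∑ p ∈ I, ((p.1:ℝ) * p.2) ^ (-s) * ‖Sh b D L (fq c p)‖ ≤ C * W ^ (-((s - κ) / 4)) * (D.card:ℝ)^L := by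
  classical
  have hb1 : (1:ℝ) < b := by exact_mod_cast (by omega : 1 < b)
  have hb0 : (0:ℝ) < b := by linarith
  obtain ⟨δ, hδ⟩ : ∃ δ : ℝ, δ = (s - κ) / 2 := ⟨_, rfl⟩
  have hδ0 : 0 < δ := by rw [hδ]; linarith
  have hδ1 : δ ≤ 1/4 := by rw [hδ]; linarith
  set ρ : ℝ := (2:ℝ) ^ (-(δ / 2)) with hρ
  have hρ0 : 0 < ρ := by positivity
  have hρ1 : ρ < 1 := Real.rpow_lt_one_of_one_lt_of_neg (by norm_num) (by linarith)
  obtain ⟨C1, hC1⟩ : ∃ C1 : ℝ, C1 = (2 * c + 2) * (4 / c + 1) * b := ⟨_, rfl⟩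
  have hC1p : 0 < C1 := by rw [hC1]; positivity
  have hg1 : 0 < 1 / (1 - ρ) := by apply div_pos one_pos; linarith
  refine ⟨2 * C1 * 4 ^ (δ / 2) * (1 / (1 - ρ)) ^ 2, by positivity, ?_⟩
  intro L W I hW hI
  have hW0 : 0 < W := by linarith
  set J : ℕ := (∑ p ∈ I, (p.1 + p.2)) + 1 with hJ
  have hmap : ∀ p ∈ I, (Nat.log 2 p.1, Nat.log 2 p.2) ∈ (range J) ×ˢ (range J) := by
    intro p hp
    have h1 : p.1 + p.2 ≤ ∑ p ∈ I, (p.1 + p.2) := single_le_sum (f := fun p : ℕ × ℕ => p.1 + p.2) (fun _ _ => Nat.zero_le _) hp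
    have h2 := Nat.log_le_self 2 p.1
    have h3 := Nat.log_le_self 2 p.2
    rw [mem_product, mem_range, mem_range]
    constructor
    · simp only; omega
    · simp only; omega
  rw [← sum_fiberwise_of_maps_to hmap]
  have hblk : ∀ ij ∈ (range J) ×ˢ (range J),
      ∑ p ∈ I.filter (fun p => (Nat.log 2 p.1, Nat.log 2 p.2) = ij), ((p.1:ℝ) * p.2) ^ (-s) * ‖Sh b D L (fq c p)‖ ≤
      (2 * C1 * 4 ^ (δ / 2) * W ^ (-(δ / 2)) * (D.card:ℝ)^L) * (ρ ^ ij.1 * ρ ^ ij.2) := by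
    rintro ⟨i, j⟩ _
    set I' := I.filter (fun p => (Nat.log 2 p.1, Nat.log 2 p.2) = (i, j)) with hI'
    rcases I'.eq_empty_or_nonempty with he | hne
    · rw [he, sum_empty]; positivity
    have hI2 : ∀ p ∈ I', Nat.Coprime p.1 p.2 ∧ 2^i ≤ p.1 ∧ p.1 < 2^(i+1) ∧ 2^j ≤ p.2 ∧ p.2 < 2^(j+1) := by
      intro p hp
      rw [hI', mem_filter, Prod.mk.injEq] at hp
      obtain ⟨h1, h2, h3, _, _⟩ := hI p hp.1
      obtain ⟨h4, h5⟩ := hp.2
      refine ⟨h1, ?_, ?_, ?_, ?_⟩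
      · rw [← h4]; exact Nat.pow_log_le_self 2 (by omega)
      · rw [← h4]; exact Nat.lt_pow_succ_log_self (by norm_num) _
      · rw [← h5]; exact Nat.pow_log_le_self 2 (by omega)
      · rw [← h5]; exact Nat.lt_pow_succ_log_self (by norm_num) _
    set N : ℝ := (2:ℝ)^(i+j) with hN
    have hN1 : 1 ≤ N := one_le_pow₀ (by norm_num)
    have hN0 : 0 < N := by linarith
    have hbL : (0:ℝ) < (b:ℝ)^L := by positivity
    have hNp : ∀ p ∈ I', N ≤ (p.1:ℝ) * p.2 := by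
      intro p hp
      obtain ⟨_, h1, _, h3, _⟩ := hI2 p hp
      have a1 : ((2:ℝ)^i) ≤ p.1 := by exact_mod_cast h1
      have a2 : ((2:ℝ)^j) ≤ p.2 := by exact_mod_cast h3
      rw [hN, pow_add]
      exact mul_le_mul a1 a2 (by positivity) (by positivity)
    have hNW : W ≤ 4 * N := by
      obtain ⟨p, hp⟩ := hne
      obtain ⟨_, _, h2, _, h4⟩ := hI2 p hp
      have hp' := hI p (by rw [hI', mem_filter] at hp; exact hp.1)
      have a1 : (p.1:ℝ) ≤ 2^(i+1) := by exact_mod_cast h2.le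
      have a2 : (p.2:ℝ) ≤ 2^(j+1) := by exact_mod_cast h4.le
      calc W ≤ (p.1:ℝ) * p.2 := hp'.2.2.2.1
        _ ≤ 2^(i+1) * 2^(j+1) := mul_le_mul a1 a2 (by positivity) (by positivity)
        _ = 4 * N := by rw [hN, pow_add, pow_succ, pow_succ]; ring
    have hNZ : N ≤ ((b:ℝ)^L) ^ (1 + δ) := by
      obtain ⟨p, hp⟩ := hne
      have hp' := hI p (by rw [hI', mem_filter] at hp; exact hp.1)
      rw [hδ]
      exact (hNp p hp).trans hp'.2.2.2.2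
    have h1 := blk_sum hc hb hD hS hκ0 (by linarith) hSum i j L I' hI2
    rw [← hC1, ← hN] at h1
    have hNs : ∀ p ∈ I', ((p.1:ℝ) * p.2) ^ (-s) ≤ N ^ (-s) := fun p hp =>
      Real.rpow_le_rpow_of_nonpos hN0 (hNp p hp) (by linarith)
    have h2 : N ^ (-s) * (N ^ κ + N * ((b:ℝ)^L) ^ (κ - 1)) ≤ 2 * N ^ (-δ) := by
      have e1 : N ^ (-s) * N ^ κ ≤ N ^ (-δ) := by
        rw [← Real.rpow_add hN0]
        apply Real.rpow_le_rpow_of_exponent_le hN1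
        rw [hδ]; linarith
      have e2 : N ^ (-s) * (N * ((b:ℝ)^L) ^ (κ - 1)) ≤ N ^ (-δ) := by
        have g1 : N ^ (-s) * N = N ^ (-δ) * N ^ (1 - s + δ) := by
          rw [← Real.rpow_add hN0]
          nth_rw 2 [← Real.rpow_one N]
          rw [← Real.rpow_add hN0]
          congr 1; ring
        have g2 : N ^ (1 - s + δ) ≤ ((b:ℝ)^L) ^ (1 - κ) := by
          have hexp : 0 ≤ 1 - s + δ := by linarith
          calc N ^ (1 - s + δ) ≤ (((b:ℝ)^L) ^ (1 + δ)) ^ (1 - s + δ) := Real.rpow_le_rpow hN0.le hNZ hexp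
            _ = ((b:ℝ)^L) ^ ((1 + δ) * (1 - s + δ)) := by rw [← Real.rpow_mul hbL.le]
            _ ≤ _ := by
              apply Real.rpow_le_rpow_of_exponent_le (one_le_pow₀ hb1.le)
              have hs' : s = κ + 2 * δ := by rw [hδ]; ring
              rw [hs']
              nlinarith
        have g3 : ((b:ℝ)^L) ^ (1 - κ) * ((b:ℝ)^L) ^ (κ - 1) = 1 := by
          rw [← Real.rpow_add hbL]
          have : 1 - κ + (κ - 1) = 0 := by ring
          rw [this, Real.rpow_zero]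
        have g4 : 0 ≤ ((b:ℝ)^L) ^ (κ - 1) := by positivity
        calc N ^ (-s) * (N * ((b:ℝ)^L) ^ (κ - 1)) = (N ^ (-s) * N) * ((b:ℝ)^L) ^ (κ - 1) := by ring
          _ = N ^ (-δ) * (N ^ (1 - s + δ) * ((b:ℝ)^L) ^ (κ - 1)) := by rw [g1]; ring
          _ ≤ N ^ (-δ) * (((b:ℝ)^L) ^ (1 - κ) * ((b:ℝ)^L) ^ (κ - 1)) := by gcongr
          _ = N ^ (-δ) := by rw [g3, mul_one]
      rw [mul_add]; linarith
    have h3 : N ^ (-δ) ≤ 4 ^ (δ / 2) * W ^ (-(δ / 2)) * (ρ ^ i * ρ ^ j) := by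
      have e1 : N ^ (-δ) = N ^ (-(δ/2)) * N ^ (-(δ/2)) := by
        rw [← Real.rpow_add hN0]; congr 1; ring
      have e2 : N ^ (-(δ/2)) = ρ ^ i * ρ ^ j := by
        rw [hN, hρ, ← pow_add, ← Real.rpow_natCast, ← Real.rpow_natCast, ← Real.rpow_mul (by norm_num), ← Real.rpow_mul (by norm_num)]
        congr 1; ring
      have e3 : N ^ (-(δ/2)) ≤ 4 ^ (δ / 2) * W ^ (-(δ / 2)) := by
        have : (W/4) ^ (-(δ/2)) = 4 ^ (δ / 2) * W ^ (-(δ / 2)) := by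
          rw [Real.div_rpow hW0.le (by norm_num), Real.rpow_neg (by norm_num : (0:ℝ) ≤ 4), div_inv_eq_mul, mul_comm]
        rw [← this]
        apply Real.rpow_le_rpow_of_nonpos (by positivity) (by linarith) (by linarith)
      have e4 : 0 ≤ ρ ^ i * ρ ^ j := by positivity
      calc N ^ (-δ) = N ^ (-(δ/2)) * (ρ ^ i * ρ ^ j) := by rw [e1, ← e2]
        _ ≤ _ := mul_le_mul_of_nonneg_right e3 e4
    calc ∑ p ∈ I', ((p.1:ℝ) * p.2) ^ (-s) * ‖Sh b D L (fq c p)‖ ≤ ∑ p ∈ I', N ^ (-s) * ‖Sh b D L (fq c p)‖ :=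
          sum_le_sum fun p hp => mul_le_mul_of_nonneg_right (hNs p hp) (norm_nonneg _)
      _ = N ^ (-s) * ∑ p ∈ I', ‖Sh b D L (fq c p)‖ := by rw [mul_sum]
      _ ≤ N ^ (-s) * (C1 * (D.card:ℝ)^L * (N ^ κ + N * ((b:ℝ)^L) ^ (κ - 1))) :=
          mul_le_mul_of_nonneg_left h1 (by positivity)
      _ = C1 * (D.card:ℝ)^L * (N ^ (-s) * (N ^ κ + N * ((b:ℝ)^L) ^ (κ - 1))) := by ring
      _ ≤ C1 * (D.card:ℝ)^L * (2 * N ^ (-δ)) := mul_le_mul_of_nonneg_left h2 (by positivity)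
      _ ≤ C1 * (D.card:ℝ)^L * (2 * (4 ^ (δ / 2) * W ^ (-(δ / 2)) * (ρ ^ i * ρ ^ j))) := by gcongr
      _ = _ := by ring
  refine (sum_le_sum hblk).trans ?_
  rw [← mul_sum, sum_product]
  have hgeo : ∑ i ∈ range J, ρ ^ i ≤ 1 / (1 - ρ) := by
    have h1 := Summable.sum_le_tsum (range J) (fun i _ => by positivity) (summable_geometric_of_lt_one hρ0.le hρ1)
    rw [tsum_geometric_of_lt_one hρ0.le hρ1] at h1
    rw [one_div]
    exact h1
  have hdouble : ∑ i ∈ range J, ∑ j ∈ range J, ρ ^ i * ρ ^ j ≤ (1 / (1 - ρ)) ^ 2 := by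
    have e1 : ∑ i ∈ range J, ∑ j ∈ range J, ρ ^ i * ρ ^ j = (∑ i ∈ range J, ρ ^ i) ^ 2 := by
      rw [sq, sum_mul_sum]
    rw [e1]
    exact pow_le_pow_left₀ (sum_nonneg fun _ _ => by positivity) hgeo 2
  have e5 : (s - κ) / 4 = δ / 2 := by rw [hδ]; ring
  rw [e5]
  calc _ ≤ (2 * C1 * 4 ^ (δ / 2) * W ^ (-(δ / 2)) * (D.card:ℝ)^L) * (1 / (1 - ρ)) ^ 2 :=
        mul_le_mul_of_nonneg_left hdouble (by positivity)
    _ = _ := by ring

end Pool.Agent.H31.ZD
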