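import Mathlib
import Pool.Agent.H31.ZD.Sp

/-!
# Bilinear mean values of Dirichlet polynomials over the blocks
-/

set_option autoImplicit false

open Finset

namespace Pool.Agent.H31.ZD

/-- a Dirichlet polynomial at the height `t` -/
noncomputable def dp (N : ℕ) (a : ℕ → ℂ) (t : ℝ) : ℂ :=
  ∑ n ∈ Icc 1 N, a n * Complex.exp (-(Complex.I * ((t * Real.log n : ℝ) : ℂ)))

/-- the unimodular factor of a pair -/
noncomputable def ux (β : ℝ) (p : ℕ × ℕ) : ℂ := Complex.exp (Complex.I * ((β * (Real.log p.2 - Real.log p.1) : ℝ) : ℂ))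

lemma norm_ux (β : ℝ) (p : ℕ × ℕ) : ‖ux β p‖ = 1 := by
  unfold ux
  rw [mul_comm]
  exact Complex.norm_exp_ofReal_mul_I _

lemma dp_mul (N N' : ℕ) (a a' : ℕ → ℂ) (α β : ℝ) (u : ℕ) :
    dp N a (α * u + β) * (starRingEnd ℂ) (dp N' a' (α * u + β)) =
      ∑ p ∈ (Icc 1 N) ×ˢ (Icc 1 N'), a p.1 * (starRingEnd ℂ) (a' p.2) * ux β p * ee (u * fq (α / (2 * Real.pi)) p) := by
  unfold dp
  rw [map_sum, sum_mul_sum, ← sum_product']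
  refine sum_congr rfl fun p _ => ?_
  rw [map_mul, ← Complex.exp_conj]
  have e1 : Complex.exp (-(Complex.I * (((α * u + β) * Real.log p.1 : ℝ) : ℂ))) *
      Complex.exp ((starRingEnd ℂ) (-(Complex.I * (((α * u + β) * Real.log p.2 : ℝ) : ℂ)))) =
      ux β p * ee (u * fq (α / (2 * Real.pi)) p) := by
    unfold ux ee fq
    rw [← Complex.exp_add, ← Complex.exp_add]
    congr 1
    rw [map_neg, map_mul, Complex.conj_I, Complex.conj_ofReal]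
    have hpi : (2 * Real.pi * ((u:ℝ) * (α / (2 * Real.pi) * (Real.log p.2 - Real.log p.1))) : ℝ) =
        α * u * (Real.log p.2 - Real.log p.1) := by
      have := Real.pi_pos.ne'
      field_simp
    rw [hpi]
    push_cast
    ring
  calc a p.1 * Complex.exp (-(Complex.I * (((α * u + β) * Real.log p.1 : ℝ) : ℂ))) *
      ((starRingEnd ℂ) (a' p.2) * Complex.exp ((starRingEnd ℂ) (-(Complex.I * (((α * u + β) * Real.log p.2 : ℝ) : ℂ)))))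
      = a p.1 * (starRingEnd ℂ) (a' p.2) * (Complex.exp (-(Complex.I * (((α * u + β) * Real.log p.1 : ℝ) : ℂ))) *
      Complex.exp ((starRingEnd ℂ) (-(Complex.I * (((α * u + β) * Real.log p.2 : ℝ) : ℂ))))) := by ring
    _ = _ := by rw [e1]; ring

lemma bil_eq (b : ℕ) (D : Finset ℕ) (L N N' : ℕ) (a a' : ℕ → ℂ) (α β : ℝ) :
    ∑ u ∈ Rj b D L, dp N a (α * u + β) * (starRingEnd ℂ) (dp N' a' (α * u + β)) =
      ∑ p ∈ (Icc 1 N) ×ˢ (Icc 1 N'), a p.1 * (starRingEnd ℂ) (a' p.2) * ux β p * Sh b D L (fq (α / (2 * Real.pi)) p) := by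
  simp_rw [dp_mul]
  rw [sum_comm]
  refine sum_congr rfl fun p _ => ?_
  unfold Sh
  rw [mul_sum]

lemma fq_diag (c : ℝ) (n : ℕ) : fq c (n, n) = 0 := by unfold fq; simp

lemma Sh_at_zero {b : ℕ} (hb : 2 ≤ b) {D : Finset ℕ} (hD : ∀ d ∈ D, d < b) (L : ℕ) : Sh b D L 0 = (D.card : ℂ) ^ L := by
  unfold Sh ee
  simp [Rj_card hb hD]

/-- the diagonal is separated -/
lemma bil_diag {b : ℕ} (hb : 2 ≤ b) {D : Finset ℕ} (hD : ∀ d ∈ D, d < b) (L : ℕ) {N N' : ℕ} (hN : N' ≤ N) (a a' : ℕ → ℂ) (α β : ℝ) :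
    ‖∑ u ∈ Rj b D L, dp N a (α * u + β) * (starRingEnd ℂ) (dp N' a' (α * u + β)) -
      (D.card : ℂ) ^ L * ∑ n ∈ Icc 1 N', a n * (starRingEnd ℂ) (a' n)‖ ≤
      ∑ p ∈ ((Icc 1 N) ×ˢ (Icc 1 N')).filter (fun p => p.1 ≠ p.2), ‖a p.1‖ * ‖a' p.2‖ * ‖Sh b D L (fq (α / (2 * Real.pi)) p)‖ := by
  rw [bil_eq, ← sum_filter_add_sum_filter_not _ (fun p : ℕ × ℕ => p.1 = p.2)]
  have h1 : ∑ p ∈ ((Icc 1 N) ×ˢ (Icc 1 N')).filter (fun p => p.1 = p.2),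
      a p.1 * (starRingEnd ℂ) (a' p.2) * ux β p * Sh b D L (fq (α / (2 * Real.pi)) p) =
      (D.card : ℂ) ^ L * ∑ n ∈ Icc 1 N', a n * (starRingEnd ℂ) (a' n) := by
    rw [mul_sum]
    symm
    refine sum_bij (fun n _ => (n, n)) ?_ ?_ ?_ ?_
    · intro n hn
      rw [mem_Icc] at hn
      rw [mem_filter, mem_product, mem_Icc, mem_Icc]
      exact ⟨⟨⟨hn.1, hn.2.trans hN⟩, hn⟩, rfl⟩
    · intro n _ m _ h
      simpa using h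
    · intro p hp
      rw [mem_filter, mem_product] at hp
      exact ⟨p.2, hp.1.2, Prod.ext hp.2.symm rfl⟩
    · intro n _
      simp only
      rw [fq_diag, Sh_at_zero hb hD]
      unfold ux
      simp
      ring
  rw [h1]
  have h2 : ∀ x y : ℂ, x + y - x = y := fun x y => by ring
  rw [h2]
  refine (norm_sum_le _ _).trans (sum_le_sum fun p _ => ?_)
  rw [norm_mul, norm_mul, norm_mul, norm_ux, RCLike.norm_conj, mul_one]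

/-- the off-diagonal terms -/
lemma offdiag {c : ℝ} {b : ℕ} {D : Finset ℕ} {s κ : ℝ} {C : ℝ} (hC : 0 < C)
    (hKL : ∀ (L : ℕ) (W : ℝ) (I : Finset (ℕ × ℕ)), 1 ≤ W →
      (∀ p ∈ I, Nat.Coprime p.1 p.2 ∧ 1 ≤ p.1 ∧ 1 ≤ p.2 ∧ W ≤ (p.1:ℝ) * p.2 ∧
        (p.1:ℝ) * p.2 ≤ ((b:ℝ)^L) ^ (1 + (s - κ) / 2)) →
      ∑ p ∈ I, ((p.1:ℝ) * p.2) ^ (-s) * ‖Sh b D L (fq c p)‖ ≤ C * W ^ (-((s - κ) / 4)) * (D.card:ℝ)^L)
    (L : ℕ) {W : ℝ} (hW : 1 ≤ W) {g : ℕ → ℝ} (hg0 : ∀ n, 0 ≤ g n) (hgm : ∀ m n, g (m * n) ≤ g m * g n)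
    (hgs : ∀ n : ℕ, 1 ≤ n → g n * (n:ℝ) ^ (-(1/2) : ℝ) ≤ (n:ℝ) ^ (-s))
    (hgW : ∀ p q : ℕ, 1 ≤ p → 1 ≤ q → p ≠ q → g p ≠ 0 → g q ≠ 0 → W ≤ (p:ℝ) * q)
    {N N' : ℕ} (hNN : (N:ℝ) * N' ≤ ((b:ℝ)^L) ^ (1 + (s - κ) / 2)) :
    ∑ p ∈ ((Icc 1 N) ×ˢ (Icc 1 N')).filter (fun p => p.1 ≠ p.2),
      (g p.1 * (p.1:ℝ) ^ (-(1/2) : ℝ)) * (g p.2 * (p.2:ℝ) ^ (-(1/2) : ℝ)) * ‖Sh b D L (fq c p)‖ ≤
      C * W ^ (-((s - κ) / 4)) * (D.card:ℝ)^L * ∑ h ∈ Icc 1 N', g h ^ 2 / h := by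
  classical
  set A := ((Icc 1 N) ×ˢ (Icc 1 N')).filter (fun p => p.1 ≠ p.2) with hA
  set I0 := ((Icc 1 N) ×ˢ (Icc 1 N')).filter (fun p => Nat.Coprime p.1 p.2 ∧ p.1 ≠ p.2) with hI0
  set E : ℕ × ℕ → ℝ := fun p => (g p.1 * (p.1:ℝ) ^ (-(1/2) : ℝ)) * (g p.2 * (p.2:ℝ) ^ (-(1/2) : ℝ)) * ‖Sh b D L (fq c p)‖ with hE
  have hE0 : ∀ p, 0 ≤ E p := fun p => by
    have := hg0 p.1; have := hg0 p.2
    simp only [hE]; positivity
  set Φ : ℕ × ℕ → ℕ × (ℕ × ℕ) := fun p => (Nat.gcd p.1 p.2, (p.1 / Nat.gcd p.1 p.2, p.2 / Nat.gcd p.1 p.2)) with hΦ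
  have hmem : ∀ p ∈ A, Φ p ∈ (Icc 1 N') ×ˢ I0 := by
    intro p hp
    rw [hA, mem_filter, mem_product, mem_Icc, mem_Icc] at hp
    obtain ⟨⟨⟨h1, h2⟩, h3, h4⟩, h5⟩ := hp
    have hgp : 0 < Nat.gcd p.1 p.2 := Nat.gcd_pos_of_pos_left _ h1
    have hd1 := Nat.gcd_dvd_left p.1 p.2
    have hd2 := Nat.gcd_dvd_right p.1 p.2
    rw [mem_product, mem_Icc, hI0, mem_filter, mem_product, mem_Icc, mem_Icc]
    refine ⟨⟨hgp, (Nat.le_of_dvd h3 hd2).trans h4⟩, ⟨⟨Nat.div_pos (Nat.le_of_dvd h1 hd1) hgp, (Nat.div_le_self _ _).trans h2⟩,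
      Nat.div_pos (Nat.le_of_dvd h3 hd2) hgp, (Nat.div_le_self _ _).trans h4⟩, Nat.coprime_div_gcd_div_gcd hgp, ?_⟩
    intro h6
    apply h5
    simp only [hΦ] at h6
    calc p.1 = p.1 / Nat.gcd p.1 p.2 * Nat.gcd p.1 p.2 := (Nat.div_mul_cancel hd1).symm
      _ = p.2 / Nat.gcd p.1 p.2 * Nat.gcd p.1 p.2 := by rw [h6]
      _ = p.2 := Nat.div_mul_cancel hd2
  have hinj : Set.InjOn Φ (A : Set (ℕ × ℕ)) := by
    intro p hp q hq h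
    simp only [hΦ, Prod.mk.injEq] at h
    obtain ⟨h1, h2, h3⟩ := h
    apply Prod.ext
    · rw [← Nat.div_mul_cancel (Nat.gcd_dvd_left p.1 p.2), ← Nat.div_mul_cancel (Nat.gcd_dvd_left q.1 q.2), h2, h1]
    · rw [← Nat.div_mul_cancel (Nat.gcd_dvd_right p.1 p.2), ← Nat.div_mul_cancel (Nat.gcd_dvd_right q.1 q.2), h3, h1]
  have hle : ∀ p ∈ A, E p ≤ (g (Φ p).1 ^ 2 / (Φ p).1) * E (Φ p).2 := by
    intro p hp
    rw [hA, mem_filter, mem_product, mem_Icc, mem_Icc] at hp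
    obtain ⟨⟨⟨h1, h2⟩, h3, h4⟩, h5⟩ := hp
    have hgp : 0 < Nat.gcd p.1 p.2 := Nat.gcd_pos_of_pos_left _ h1
    obtain ⟨x, hx⟩ := Nat.gcd_dvd_left p.1 p.2
    obtain ⟨y, hy⟩ := Nat.gcd_dvd_right p.1 p.2
    set h := Nat.gcd p.1 p.2 with hh
    have hx1 : p.1 / h = x := by rw [hx]; exact Nat.mul_div_cancel_left _ hgp
    have hy1 : p.2 / h = y := by rw [hy]; exact Nat.mul_div_cancel_left _ hgp
    have hx0 : 0 < x := by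
      rcases Nat.eq_zero_or_pos x with h0 | h0
      · rw [h0] at hx; omega
      · exact h0
    have hy0 : 0 < y := by
      rcases Nat.eq_zero_or_pos y with h0 | h0
      · rw [h0] at hy; omega
      · exact h0
    have hfq : fq c p = fq c (x, y) := by
      unfold fq
      have a1 : (p.1:ℝ) = h * x := by exact_mod_cast hx
      have a2 : (p.2:ℝ) = h * y := by exact_mod_cast hy
      have hhr : (h:ℝ) ≠ 0 := by exact_mod_cast hgp.ne'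
      have hxr : (x:ℝ) ≠ 0 := by exact_mod_cast hx0.ne'
      have hyr : (y:ℝ) ≠ 0 := by exact_mod_cast hy0.ne'
      rw [a1, a2, Real.log_mul hhr hxr, Real.log_mul hhr hyr]
      ring
    simp only [hE, hΦ]
    rw [← hh, hx1, hy1, hfq]
    have g1 : g p.1 ≤ g h * g x := by
      have := hgm h x
      rwa [← hx] at this
    have g2 : g p.2 ≤ g h * g y := by
      have := hgm h y
      rwa [← hy] at this
    have r1 : (p.1:ℝ) ^ (-(1/2) : ℝ) = (h:ℝ) ^ (-(1/2) : ℝ) * (x:ℝ) ^ (-(1/2) : ℝ) := by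
      have a1 : (p.1:ℝ) = h * x := by exact_mod_cast hx
      rw [a1, Real.mul_rpow (by positivity) (by positivity)]
    have r2 : (p.2:ℝ) ^ (-(1/2) : ℝ) = (h:ℝ) ^ (-(1/2) : ℝ) * (y:ℝ) ^ (-(1/2) : ℝ) := by
      have a1 : (p.2:ℝ) = h * y := by exact_mod_cast hy
      rw [a1, Real.mul_rpow (by positivity) (by positivity)]
    have r3 : (h:ℝ) ^ (-(1/2) : ℝ) * (h:ℝ) ^ (-(1/2) : ℝ) = 1 / h := by
      have hhr : (0:ℝ) < h := by exact_mod_cast hgp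
      rw [← Real.rpow_add hhr]
      norm_num
      rw [Real.rpow_neg_one]
    have q1 := hg0 p.1
    have q2 := hg0 p.2
    have q3 := hg0 h
    have q4 := hg0 x
    have q5 := hg0 y
    rw [r1, r2]
    calc (g p.1 * ((h:ℝ) ^ (-(1/2) : ℝ) * (x:ℝ) ^ (-(1/2) : ℝ))) * (g p.2 * ((h:ℝ) ^ (-(1/2) : ℝ) * (y:ℝ) ^ (-(1/2) : ℝ))) * ‖Sh b D L (fq c (x, y))‖
        ≤ ((g h * g x) * ((h:ℝ) ^ (-(1/2) : ℝ) * (x:ℝ) ^ (-(1/2) : ℝ))) * ((g h * g y) * ((h:ℝ) ^ (-(1/2) : ℝ) * (y:ℝ) ^ (-(1/2) : ℝ))) * ‖Sh b D L (fq c (x, y))‖ := by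
          gcongr
      _ = (g h ^ 2 * ((h:ℝ) ^ (-(1/2) : ℝ) * (h:ℝ) ^ (-(1/2) : ℝ))) * ((g x * (x:ℝ) ^ (-(1/2) : ℝ)) * (g y * (y:ℝ) ^ (-(1/2) : ℝ)) * ‖Sh b D L (fq c (x, y))‖) := by ring
      _ = _ := by rw [r3]; ring
  have hI : ∑ p ∈ I0, E p ≤ C * W ^ (-((s - κ) / 4)) * (D.card:ℝ)^L := by
    have e1 : ∑ p ∈ I0, E p = ∑ p ∈ I0.filter (fun p => E p ≠ 0), E p := (sum_filter_ne_zero _).symm
    rw [e1]
    refine le_trans (sum_le_sum (g := fun p => ((p.1:ℝ) * p.2) ^ (-s) * ‖Sh b D L (fq c p)‖) ?_) (hKL L W _ hW ?_)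
    · intro p hp
      rw [mem_filter, hI0, mem_filter, mem_product, mem_Icc, mem_Icc] at hp
      have h1 := hgs p.1 hp.1.1.1.1
      have h2 := hgs p.2 hp.1.1.2.1
      have q1 := hg0 p.1
      have q2 := hg0 p.2
      simp only [hE]
      apply mul_le_mul_of_nonneg_right _ (norm_nonneg _)
      rw [Real.mul_rpow (by positivity) (by positivity)]
      exact mul_le_mul h1 h2 (by positivity) (by positivity)
    · intro p hp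
      rw [mem_filter, hI0, mem_filter, mem_product, mem_Icc, mem_Icc] at hp
      obtain ⟨⟨⟨⟨h1, h2⟩, h3, h4⟩, h5, h6⟩, h7⟩ := hp
      refine ⟨h5, h1, h3, ?_, ?_⟩
      · apply hgW p.1 p.2 h1 h3 h6
        · intro h0; apply h7; simp only [hE]; rw [h0]; simp
        · intro h0; apply h7; simp only [hE]; rw [h0]; simp
      · have a1 : (p.1:ℝ) ≤ N := by exact_mod_cast h2
        have a2 : (p.2:ℝ) ≤ N' := by exact_mod_cast h4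
        exact (mul_le_mul a1 a2 (by positivity) (by positivity)).trans hNN
  calc ∑ p ∈ A, E p ≤ ∑ p ∈ A, (g (Φ p).1 ^ 2 / (Φ p).1) * E (Φ p).2 := sum_le_sum hle
    _ = ∑ x ∈ A.image Φ, (g x.1 ^ 2 / x.1) * E x.2 := by rw [sum_image hinj]
    _ ≤ ∑ x ∈ (Icc 1 N') ×ˢ I0, (g x.1 ^ 2 / x.1) * E x.2 := by
        apply sum_le_sum_of_subset_of_nonneg
        · intro x hx
          rw [mem_image] at hx
          obtain ⟨p, hp, rfl⟩ := hx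
          exact hmem p hp
        · intro x _ _
          have := hE0 x.2
          positivity
    _ = (∑ h ∈ Icc 1 N', g h ^ 2 / h) * ∑ p ∈ I0, E p := by rw [sum_mul_sum, sum_product]
    _ ≤ (∑ h ∈ Icc 1 N', g h ^ 2 / h) * (C * W ^ (-((s - κ) / 4)) * (D.card:ℝ)^L) := by
        apply mul_le_mul_of_nonneg_left hI
        exact sum_nonneg fun h _ => by positivity
    _ = _ := by ring

/-- **bilinear mean values of Dirichlet polynomials over the blocks** -/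
theorem mvb {α : ℝ} (hα : 0 < α) {b : ℕ} (hb : 2 ≤ b) {D : Finset ℕ} (hD : ∀ d ∈ D, d < b) {S : ℕ → ℝ}
    (hS : ∀ r < b, ∀ x : ℝ, (r:ℝ) / b ≤ x → x ≤ ((r:ℝ) + 1) / b → ‖ph D x‖ ≤ S r)
    {κ s : ℝ} (hκ0 : 0 ≤ κ) (hκs : κ < s) (hs : s ≤ 1 / 2) (hSum : ∑ r ∈ range b, S r ≤ D.card * (b:ℝ) ^ κ) :
    ∃ C : ℝ, 0 < C ∧ ∀ (L : ℕ) (W : ℝ) (g : ℕ → ℝ), 1 ≤ W → (∀ n, 0 ≤ g n) → (∀ m n, g (m * n) ≤ g m * g n) →
      (∀ n : ℕ, 1 ≤ n → g n * (n:ℝ) ^ (-(1/2) : ℝ) ≤ (n:ℝ) ^ (-s)) →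
      (∀ p q : ℕ, 1 ≤ p → 1 ≤ q → p ≠ q → g p ≠ 0 → g q ≠ 0 → W ≤ (p:ℝ) * q) →
      ∀ (N N' : ℕ) (a a' : ℕ → ℂ) (β : ℝ), N' ≤ N → (N:ℝ) * N' ≤ ((b:ℝ)^L) ^ (1 + (s - κ) / 2) →
      (∀ n, 1 ≤ n → ‖a n‖ ≤ g n * (n:ℝ) ^ (-(1/2) : ℝ)) → (∀ n, 1 ≤ n → ‖a' n‖ ≤ g n * (n:ℝ) ^ (-(1/2) : ℝ)) →
      ‖∑ u ∈ Rj b D L, dp N a (α * u + β) * (starRingEnd ℂ) (dp N' a' (α * u + β)) -
        (D.card : ℂ) ^ L * ∑ n ∈ Icc 1 N', a n * (starRingEnd ℂ) (a' n)‖ ≤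
      C * W ^ (-((s - κ) / 4)) * (D.card:ℝ)^L * ∑ h ∈ Icc 1 N', g h ^ 2 / h := by
  have hc : 0 < α / (2 * Real.pi) := by positivity
  obtain ⟨C, hC, hKL⟩ := KL hc hb hD hS hκ0 hκs hs hSum
  refine ⟨C, hC, ?_⟩
  intro L W g hW hg0 hgm hgs hgW N N' a a' β hN hNN ha ha'
  refine (bil_diag hb hD L hN a a' α β).trans (le_trans ?_ (offdiag hC hKL L hW hg0 hgm hgs hgW hNN))
  refine sum_le_sum fun p hp => ?_
  rw [mem_filter, mem_product, mem_Icc, mem_Icc] at hp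
  apply mul_le_mul_of_nonneg_right _ (norm_nonneg _)
  exact mul_le_mul (ha _ hp.1.1.1) (ha' _ hp.1.2.1) (norm_nonneg _) (by have := hg0 p.1; positivity)

end Pool.Agent.H31.ZD
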