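import Mathlib
import Pool.Graph.R_seed8.Helper256.KM.Mertens

/-!
# Sums of completely multiplicative functions over rough numbers
-/

set_option autoImplicit false

open Finset
open scoped ArithmeticFunction.Omega

namespace Pool.Agent.H31.ZD

/-- `n` is positive and all its prime factors exceed `w` -/
def Rgh (w n : ℕ) : Prop := n ≠ 0 ∧ ∀ p, p.Prime → p ∣ n → w < p

lemma Rgh_mul {w m n : ℕ} : Rgh w (m * n) ↔ Rgh w m ∧ Rgh w n := by
  unfold Rgh
  constructor
  · rintro ⟨h1, h2⟩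
    rw [mul_ne_zero_iff] at h1
    exact ⟨⟨h1.1, fun p hp hd => h2 p hp (hd.mul_right n)⟩, ⟨h1.2, fun p hp hd => h2 p hp (hd.mul_left m)⟩⟩
  · rintro ⟨⟨h1, h2⟩, h3, h4⟩
    refine ⟨mul_ne_zero h1 h3, fun p hp hd => ?_⟩
    rcases hp.dvd_mul.mp hd with h | h
    · exact h2 p hp h
    · exact h4 p hp h

lemma Rgh_one (w : ℕ) : Rgh w 1 := by
  refine ⟨one_ne_zero, fun p hp hd => ?_⟩
  exact absurd (Nat.dvd_one.mp hd) hp.one_lt.ne'

lemma Rgh_prime {w p : ℕ} (hp : p.Prime) : Rgh w p ↔ w < p := by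
  constructor
  · intro h; exact h.2 p hp dvd_rfl
  · intro h
    refine ⟨hp.ne_zero, fun q hq hd => ?_⟩
    rw [(Nat.prime_dvd_prime_iff_eq hq hp).mp hd]; exact h

open Classical in
/-- the completely multiplicative function `h ^ Ω(n)` on rough numbers -/
noncomputable def G (w : ℕ) (h : ℝ) (n : ℕ) : ℝ := if Rgh w n then h ^ (Ω n) else 0

lemma G_nonneg (w : ℕ) {h : ℝ} (hh : 0 ≤ h) (n : ℕ) : 0 ≤ G w h n := by
  unfold G
  split_ifs <;> positivity

lemma G_mul (w : ℕ) (h : ℝ) (m n : ℕ) : G w h (m * n) = G w h m * G w h n := by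
  unfold G
  by_cases h1 : Rgh w m
  · by_cases h2 : Rgh w n
    · rw [if_pos (Rgh_mul.mpr ⟨h1, h2⟩), if_pos h1, if_pos h2, ArithmeticFunction.cardFactors_mul h1.1 h2.1, pow_add]
    · rw [if_neg (fun h => h2 (Rgh_mul.mp h).2), if_neg h2, mul_zero]
  · rw [if_neg (fun h => h1 (Rgh_mul.mp h).1), if_neg h1, zero_mul]

lemma G_one (w : ℕ) (h : ℝ) : G w h 1 = 1 := by
  unfold G
  rw [if_pos (Rgh_one w), ArithmeticFunction.cardFactors_one, pow_zero]

lemma G_zero (w : ℕ) (h : ℝ) : G w h 0 = 0 := by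
  unfold G
  rw [if_neg (fun h => h.1 rfl)]

lemma G_prime (w : ℕ) (h : ℝ) {p : ℕ} (hp : p.Prime) : G w h p = if w < p then h else 0 := by
  unfold G
  by_cases h1 : w < p
  · rw [if_pos ((Rgh_prime hp).mpr h1), if_pos h1, ArithmeticFunction.cardFactors_apply_prime hp, pow_one]
  · rw [if_neg (fun h => h1 ((Rgh_prime hp).mp h)), if_neg h1]

lemma G_sq (w : ℕ) (h : ℝ) (n : ℕ) : G w h n ^ 2 = G w (h ^ 2) n := by
  unfold G
  split_ifs
  · rw [← pow_mul, ← pow_mul, mul_comm]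
  · simp

lemma rgh_pow (w : ℕ) : ∀ n : ℕ, Rgh w n → w ^ (Ω n) ≤ n := by
  intro n
  induction n using induction_on_primes with
  | zero => intro h; exact absurd rfl h.1
  | one => intro _; simp
  | prime_mul p a hp ih =>
    intro h
    rw [Rgh_mul, Rgh_prime hp] at h
    rw [ArithmeticFunction.cardFactors_mul hp.ne_zero h.2.1, ArithmeticFunction.cardFactors_apply_prime hp, pow_add, pow_one]
    exact Nat.mul_le_mul h.1.le (ih h.2)

/-- small powers dominate -/
lemma G_small {w : ℕ} {κ ε : ℝ} (hκ : 0 ≤ κ) (hε : 0 ≤ ε) (hw : κ ≤ (w:ℝ) ^ ε) {n : ℕ} (hn : 1 ≤ n) : G w κ n ≤ (n:ℝ) ^ ε := by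
  unfold G
  split_ifs with h
  · have h1 := rgh_pow w n h
    have h2 : ((w:ℝ) ^ (Ω n)) ≤ n := by exact_mod_cast h1
    calc κ ^ (Ω n) ≤ ((w:ℝ) ^ ε) ^ (Ω n) := pow_le_pow_left₀ hκ hw _
      _ = ((w:ℝ) ^ (Ω n)) ^ ε := by
        rw [← Real.rpow_natCast, ← Real.rpow_mul (by positivity), mul_comm, Real.rpow_mul (by positivity), Real.rpow_natCast]
      _ ≤ _ := Real.rpow_le_rpow (by positivity) h2 hε
  · positivity

/-- the primes in `(w, z]` -/
def PR (w z : ℕ) : Finset ℕ := (Icc 1 z).filter (fun p => p.Prime ∧ w < p)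

lemma mem_PR {w z p : ℕ} : p ∈ PR w z ↔ p ≤ z ∧ p.Prime ∧ w < p := by
  unfold PR
  rw [mem_filter, mem_Icc]
  constructor
  · rintro ⟨⟨_, h⟩, h2⟩; exact ⟨h, h2⟩
  · rintro ⟨h, h2⟩; exact ⟨⟨h2.1.one_lt.le, h⟩, h2⟩

/-- the Euler product bound -/
lemma HS_le {w : ℕ} {lam : ℝ} (hl : 0 ≤ lam) (hw : 2 * lam ≤ w) (H : ℕ) :
    ∑ h ∈ Icc 1 H, G w lam h / h ≤ ∏ p ∈ PR w H, (1 - lam / p)⁻¹ := by
  classical
  set f : ℕ →* ℝ :=
    { toFun := fun n => G w lam n / n
      map_one' := by simp [G_one]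
      map_mul' := by
        intro m n
        rw [G_mul]
        push_cast
        rw [mul_div_mul_comm] } with hf
  have hfv : ∀ n : ℕ, f n = G w lam n / n := fun n => rfl
  have hfp : ∀ {p : ℕ}, p.Prime → ‖f p‖ < 1 := by
    intro p hp
    rw [hfv, G_prime w lam hp]
    split_ifs with h
    · have h1 : (w:ℝ) < p := by exact_mod_cast h
      have hp0 : (0:ℝ) < p := by exact_mod_cast hp.pos
      rw [Real.norm_of_nonneg (by positivity), div_lt_one hp0]
      linarith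
    · simp
  have h1 := (EulerProduct.summable_and_hasSum_smoothNumbers_prod_primesBelow_geometric (f := f) hfp (H + 1)).2
  have h2 : HasSum ((Nat.smoothNumbers (H+1)).indicator (fun m => f m)) (∏ p ∈ Nat.primesBelow (H+1), (1 - f p)⁻¹) :=
    hasSum_subtype_iff_indicator.mp h1
  have h3 : ∑ h ∈ Icc 1 H, (Nat.smoothNumbers (H+1)).indicator (fun m => f m) h ≤ ∏ p ∈ Nat.primesBelow (H+1), (1 - f p)⁻¹ := by
    apply sum_le_hasSum _ _ h2
    intro n _
    apply Set.indicator_nonneg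
    intro m _
    rw [hfv]
    have := G_nonneg w hl m
    positivity
  have h4 : ∑ h ∈ Icc 1 H, G w lam h / h = ∑ h ∈ Icc 1 H, (Nat.smoothNumbers (H+1)).indicator (fun m => f m) h := by
    refine sum_congr rfl fun h hh => ?_
    rw [mem_Icc] at hh
    rw [Set.indicator_of_mem (Nat.mem_smoothNumbers_of_lt hh.1 (by omega)), hfv]
  rw [h4]
  refine h3.trans (le_of_eq ?_)
  have h5 : ∏ p ∈ Nat.primesBelow (H+1), (1 - f p)⁻¹ = ∏ p ∈ (Nat.primesBelow (H+1)).filter (fun p => w < p), (1 - f p)⁻¹ := by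
    symm
    apply prod_filter_of_ne
    intro p hp hne
    by_contra h
    apply hne
    rw [hfv, G_prime w lam (Nat.prime_of_mem_primesBelow hp), if_neg h]
    simp
  rw [h5]
  have h6 : (Nat.primesBelow (H+1)).filter (fun p => w < p) = PR w H := by
    ext p
    rw [mem_filter, Nat.mem_primesBelow, mem_PR]
    constructor
    · rintro ⟨⟨a, b⟩, c⟩; exact ⟨by omega, b, c⟩
    · rintro ⟨a, b, c⟩; exact ⟨⟨by omega, b⟩, c⟩
  rw [h6]
  refine prod_congr rfl fun p hp => ?_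
  rw [mem_PR] at hp
  rw [hfv, G_prime w lam hp.2.1, if_pos hp.2.2]

lemma PR_sq {w z : ℕ} (hw : 1 ≤ w) : ∑ p ∈ PR w z, (1:ℝ) / (p:ℝ)^2 ≤ 1 / w := by
  rcases le_or_gt w z with h | h
  · have h1 := sum_Ioc_inv_sq_le_sub (α := ℝ) (k := w) (n := z) (by omega) h
    have hw0 : (0:ℝ) < w := by exact_mod_cast hw
    have hz0 : (0:ℝ) ≤ (z:ℝ)⁻¹ := by positivity
    have h2 : ∑ p ∈ PR w z, (1:ℝ) / (p:ℝ)^2 ≤ ∑ i ∈ Ioc w z, ((i:ℝ)^2)⁻¹ := by
      have : ∀ p : ℕ, (1:ℝ) / (p:ℝ)^2 = ((p:ℝ)^2)⁻¹ := fun p => one_div _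
      simp_rw [this]
      apply sum_le_sum_of_subset_of_nonneg
      · intro p hp
        rw [mem_PR] at hp
        rw [mem_Ioc]; exact ⟨hp.2.2, hp.1⟩
      · intro i _ _; positivity
    rw [one_div]
    linarith
  · have : PR w z = ∅ := by
      ext p
      rw [mem_PR]
      simp only [notMem_empty, iff_false]
      rintro ⟨a, _, b⟩
      omega
    rw [this, sum_empty]; positivity

/-- comparison of the two products -/
lemma prod_ratio {lam : ℝ} (hl : 0 < lam) (B : ℕ) (hB : 1 ≤ B) : ∃ z0 : ℕ, ∀ w z : ℕ, z0 ≤ z → 1 ≤ w → 2 * lam ≤ w →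
    ∏ p ∈ PR w (z^B), (1 - lam / p)⁻¹ ≤ Real.exp (lam + 2 * lam * (B + 1)) * ∏ p ∈ PR w z, (1 + lam / p) := by
  obtain ⟨C, hC⟩ := Pool.Agent.Helper256.KM.mertens_log
  have hC0 : 0 ≤ C := (abs_nonneg _).trans (hC 1 le_rfl)
  refine ⟨⌈Real.exp (C + 1)⌉₊, ?_⟩
  intro w z hz hw1 hw
  have hzr : Real.exp (C + 1) ≤ z := (Nat.le_ceil _).trans (by exact_mod_cast hz)
  have hz0 : (0:ℝ) < z := (Real.exp_pos _).trans_le hzr
  have hlz : C + 1 ≤ Real.log z := (Real.le_log_iff_exp_le hz0).mpr hzr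
  have hlz0 : 0 < Real.log z := by linarith
  have hz1 : 1 ≤ z := by exact_mod_cast (Nat.cast_pos.mp hz0)
  have hzB : z ≤ z^B := Nat.le_self_pow (by omega) z
  have hx : ∀ p : ℕ, w < p → 0 ≤ lam / p ∧ lam / p ≤ 1/2 := by
    intro p hp
    have h1 : (w:ℝ) < p := by exact_mod_cast hp
    have hp0 : (0:ℝ) < p := by linarith
    refine ⟨by positivity, ?_⟩
    rw [div_le_iff₀ hp0]; linarith
  rw [← prod_filter_mul_prod_filter_not (PR w (z^B)) (fun p => p ≤ z)]
  have e1 : (PR w (z^B)).filter (fun p => p ≤ z) = PR w z := by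
    ext p
    rw [mem_filter, mem_PR, mem_PR]
    constructor
    · rintro ⟨⟨_, a, b⟩, c⟩; exact ⟨c, a, b⟩
    · rintro ⟨a, b, c⟩; exact ⟨⟨a.trans hzB, b, c⟩, a⟩
  rw [e1]
  have h1 : ∏ p ∈ PR w z, (1 - lam / p)⁻¹ ≤ Real.exp lam * ∏ p ∈ PR w z, (1 + lam / p) := by
    have step : ∀ p ∈ PR w z, (1 - lam / (p:ℝ))⁻¹ ≤ (1 + lam / p) * Real.exp (2 * (lam / p)^2) := by
      intro p hp
      rw [mem_PR] at hp
      obtain ⟨a1, a2⟩ := hx p hp.2.2
      set x := lam / (p:ℝ)
      have a3 : 2 * x^2 + 1 ≤ Real.exp (2 * x^2) := Real.add_one_le_exp _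
      have a4 : (1 - x)⁻¹ ≤ (1 + x) * (1 + 2 * x^2) := by
        rw [inv_le_iff_one_le_mul₀ (by linarith)]
        nlinarith [mul_nonneg a1 a1, mul_nonneg (mul_nonneg a1 a1) a1, mul_nonneg (mul_nonneg a1 a1) (sub_nonneg.mpr a2)]
      refine a4.trans (mul_le_mul_of_nonneg_left (by linarith) (by linarith))
    calc ∏ p ∈ PR w z, (1 - lam / (p:ℝ))⁻¹ ≤ ∏ p ∈ PR w z, ((1 + lam / p) * Real.exp (2 * (lam / p)^2)) := by
          apply prod_le_prod _ step
          intro p hp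
          rw [mem_PR] at hp
          obtain ⟨a1, a2⟩ := hx p hp.2.2
          apply inv_nonneg.mpr; linarith
      _ = (∏ p ∈ PR w z, (1 + lam / p)) * Real.exp (∑ p ∈ PR w z, 2 * (lam / p)^2) := by
          rw [prod_mul_distrib, Real.exp_sum]
      _ ≤ (∏ p ∈ PR w z, (1 + lam / p)) * Real.exp lam := by
          apply mul_le_mul_of_nonneg_left _ (prod_nonneg fun p _ => by positivity)
          apply Real.exp_le_exp.mpr
          have e2 : ∑ p ∈ PR w z, 2 * (lam / (p:ℝ))^2 = 2 * lam^2 * ∑ p ∈ PR w z, (1:ℝ) / (p:ℝ)^2 := by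
            rw [mul_sum]; refine sum_congr rfl fun p _ => ?_
            rw [div_pow]; ring
          rw [e2]
          have e3 := PR_sq (z := z) hw1
          have hw0 : (0:ℝ) < w := by exact_mod_cast hw1
          calc 2 * lam^2 * ∑ p ∈ PR w z, (1:ℝ) / (p:ℝ)^2 ≤ 2 * lam^2 * (1 / w) := by gcongr
            _ = lam * ((2 * lam) / w) := by ring
            _ ≤ lam * 1 := by
              apply mul_le_mul_of_nonneg_left _ hl.le
              rw [div_le_one hw0]; exact hw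
            _ = lam := mul_one _
      _ = _ := mul_comm _ _
  have h2 : ∏ p ∈ (PR w (z^B)).filter (fun p => ¬ p ≤ z), (1 - lam / (p:ℝ))⁻¹ ≤ Real.exp (2 * lam * (B + 1)) := by
    have step : ∀ p ∈ (PR w (z^B)).filter (fun p => ¬ p ≤ z), (1 - lam / (p:ℝ))⁻¹ ≤ Real.exp (2 * lam * ((Real.log p / p) / Real.log z)) := by
      intro p hp
      rw [mem_filter, mem_PR] at hp
      obtain ⟨a1, a2⟩ := hx p hp.1.2.2
      have hp0 : (0:ℝ) < p := by exact_mod_cast hp.1.2.1.pos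
      have hzp : (z:ℝ) ≤ p := by
        have := hp.2
        exact_mod_cast (by omega : z ≤ p)
      have a5 : Real.log z ≤ Real.log p := Real.log_le_log hz0 hzp
      have a6 : lam / (p:ℝ) ≤ lam * ((Real.log p / p) / Real.log z) := by
        have : (Real.log p / p) / Real.log z = (1 / (p:ℝ)) * (Real.log p / Real.log z) := by ring
        rw [this]
        have a7 : 1 ≤ Real.log p / Real.log z := by rw [le_div_iff₀ hlz0]; linarith
        calc lam / (p:ℝ) = lam * ((1 / (p:ℝ)) * 1) := by ring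
          _ ≤ _ := by gcongr
      set x := lam / (p:ℝ)
      have a3 : 2 * x + 1 ≤ Real.exp (2 * x) := Real.add_one_le_exp _
      have a4 : (1 - x)⁻¹ ≤ 1 + 2 * x := by
        rw [inv_le_iff_one_le_mul₀ (by linarith)]
        nlinarith
      calc (1 - x)⁻¹ ≤ Real.exp (2 * x) := by linarith
        _ ≤ _ := by
          apply Real.exp_le_exp.mpr
          have : 2 * lam * ((Real.log p / p) / Real.log z) = 2 * (lam * ((Real.log p / p) / Real.log z)) := by ring
          rw [this]; linarith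
    calc _ ≤ ∏ p ∈ (PR w (z^B)).filter (fun p => ¬ p ≤ z), Real.exp (2 * lam * ((Real.log p / p) / Real.log z)) := by
          apply prod_le_prod _ step
          intro p hp
          rw [mem_filter, mem_PR] at hp
          obtain ⟨a1, a2⟩ := hx p hp.1.2.2
          apply inv_nonneg.mpr; linarith
      _ = Real.exp (2 * lam * ((∑ p ∈ (PR w (z^B)).filter (fun p => ¬ p ≤ z), Real.log p / p) / Real.log z)) := by
          rw [← Real.exp_sum, sum_div, mul_sum]
      _ ≤ _ := by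
          apply Real.exp_le_exp.mpr
          apply mul_le_mul_of_nonneg_left _ (by positivity)
          rw [div_le_iff₀ hlz0]
          have h3 : ∑ p ∈ (PR w (z^B)).filter (fun p => ¬ p ≤ z), Real.log p / (p:ℝ) ≤ ∑ p ∈ (Icc 1 (z^B)).filter Nat.Prime, Real.log p / (p:ℝ) := by
            apply sum_le_sum_of_subset_of_nonneg
            · intro p hp
              rw [mem_filter, mem_PR] at hp
              rw [mem_filter, mem_Icc]
              exact ⟨⟨hp.1.2.1.one_lt.le, hp.1.1⟩, hp.1.2.1⟩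
            · intro p _ _
              have := Real.log_natCast_nonneg p
              positivity
          have h4 := (abs_le.mp (hC (z^B) (Nat.one_le_pow _ _ (by omega)))).2
          have h5 : Real.log ((z^B : ℕ) : ℝ) = B * Real.log z := by push_cast; rw [Real.log_pow]
          rw [h5] at h4
          nlinarith
  calc _ ≤ (Real.exp lam * ∏ p ∈ PR w z, (1 + lam / p)) * Real.exp (2 * lam * (B + 1)) := by
        apply mul_le_mul h1 h2
        · apply prod_nonneg
          intro p hp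
          rw [mem_filter, mem_PR] at hp
          obtain ⟨a1, a2⟩ := hx p hp.1.2.2
          apply inv_nonneg.mpr; linarith
        · have : 0 ≤ ∏ p ∈ PR w z, (1 + lam / (p:ℝ)) := prod_nonneg fun p _ => by positivity
          positivity
    _ = _ := by rw [Real.exp_add]; ring

open Classical in
/-- the sum over squarefree rough numbers -/
noncomputable def G0 (w : ℕ) (lam : ℝ) (Y : ℕ) : ℝ := ∑ v ∈ (Icc 1 Y).filter (fun v => Squarefree v ∧ Rgh w v), lam ^ (Ω v) / v

/-- Rankin's trick -/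
lemma rankin {lam : ℝ} (hl : 0 < lam) (A : ℕ) (hA : 4 * lam + 1 ≤ A) : ∃ z0 : ℕ, ∀ w z : ℕ, z0 ≤ z →
    (1/2) * ∏ p ∈ PR w z, (1 + lam / (p:ℝ)) ≤ G0 w lam (z^A) := by
  classical
  obtain ⟨C, hC⟩ := Pool.Agent.Helper256.KM.mertens_log
  have hC0 : 0 ≤ C := (abs_nonneg _).trans (hC 1 le_rfl)
  refine ⟨⌈Real.exp (C + 1)⌉₊, ?_⟩
  intro w z hz
  have hzr : Real.exp (C + 1) ≤ z := (Nat.le_ceil _).trans (by exact_mod_cast hz)
  have hz0 : (0:ℝ) < z := (Real.exp_pos _).trans_le hzr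
  have hlz : C + 1 ≤ Real.log z := (Real.le_log_iff_exp_le hz0).mpr hzr
  have hlz0 : 0 < Real.log z := by linarith
  have hz1 : 1 ≤ z := by exact_mod_cast (Nat.cast_pos.mp hz0)
  set P := PR w z with hP
  have hprime : ∀ T ∈ P.powerset, ∀ p ∈ T, p.Prime ∧ w < p ∧ p ≤ z := by
    intro T hT p hp
    have := (mem_powerset.mp hT) hp
    rw [hP, mem_PR] at this
    exact ⟨this.2.1, this.2.2, this.1⟩
  have hexp : ∏ p ∈ P, (1 + lam / (p:ℝ)) = ∑ T ∈ P.powerset, ∏ p ∈ T, (lam / (p:ℝ)) := prod_one_add _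
  set a : Finset ℕ → ℝ := fun T => ∏ p ∈ T, (lam / (p:ℝ)) with ha
  have hsplit := sum_filter_add_sum_filter_not P.powerset (fun T => ∏ p ∈ T, p ≤ z^A) a
  -- the part below
  have h1 : ∑ T ∈ P.powerset.filter (fun T => ∏ p ∈ T, p ≤ z^A), a T ≤ G0 w lam (z^A) := by
    have hinj : Set.InjOn (fun T : Finset ℕ => ∏ p ∈ T, p) (P.powerset.filter (fun T => ∏ p ∈ T, p ≤ z^A) : Set (Finset ℕ)) := by
      intro T hT U hU hTU
      rw [mem_coe, mem_filter] at hT hU
      simp only at hTU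
      rw [← Nat.primeFactors_prod (fun p hp => (hprime T hT.1 p hp).1), ← Nat.primeFactors_prod (fun p hp => (hprime U hU.1 p hp).1), hTU]
    have hval : ∀ T ∈ P.powerset, Rgh w (∏ p ∈ T, p) ∧ Squarefree (∏ p ∈ T, p) ∧ a T = lam ^ (Ω (∏ p ∈ T, p)) / ((∏ p ∈ T, p : ℕ) : ℝ) := by
      intro T hT
      have hpr := hprime T hT
      clear hT hinj
      induction T using Finset.induction_on with
      | empty => simp [ha, Rgh_one]
      | insert q T hq ih =>
        have hpr' : ∀ p ∈ T, p.Prime ∧ w < p ∧ p ≤ z := fun p hp => hpr p (mem_insert_of_mem hp)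
        obtain ⟨i1, i2, i3⟩ := ih hpr'
        obtain ⟨q1, q2, q3⟩ := hpr q (mem_insert_self _ _)
        rw [prod_insert hq]
        have hcop : Nat.Coprime q (∏ p ∈ T, p) := by
          apply Nat.Coprime.prod_right
          intro p hp
          rw [Nat.coprime_primes q1 (hpr' p hp).1]
          rintro rfl
          exact hq hp
        refine ⟨Rgh_mul.mpr ⟨(Rgh_prime q1).mpr q2, i1⟩, ?_, ?_⟩
        · exact (Nat.squarefree_mul_iff).mpr ⟨hcop, q1.squarefree, i2⟩
        · simp only [ha] at i3 ⊢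
          rw [prod_insert hq, i3, ArithmeticFunction.cardFactors_mul q1.ne_zero i1.1, ArithmeticFunction.cardFactors_apply_prime q1, pow_add, pow_one]
          push_cast
          rw [div_mul_div_comm]
    calc ∑ T ∈ P.powerset.filter (fun T => ∏ p ∈ T, p ≤ z^A), a T
        = ∑ T ∈ P.powerset.filter (fun T => ∏ p ∈ T, p ≤ z^A), lam ^ (Ω (∏ p ∈ T, p)) / ((∏ p ∈ T, p : ℕ) : ℝ) :=
          sum_congr rfl fun T hT => (hval T (mem_filter.mp hT).1).2.2
      _ = ∑ v ∈ (P.powerset.filter (fun T => ∏ p ∈ T, p ≤ z^A)).image (fun T => ∏ p ∈ T, p), lam ^ (Ω v) / (v:ℝ) := by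
          rw [sum_image hinj]
      _ ≤ _ := by
          unfold G0
          apply sum_le_sum_of_subset_of_nonneg
          · intro v hv
            rw [mem_image] at hv
            obtain ⟨T, hT, rfl⟩ := hv
            rw [mem_filter] at hT
            obtain ⟨v1, v2, _⟩ := hval T hT.1
            rw [mem_filter, mem_Icc]
            exact ⟨⟨Nat.one_le_iff_ne_zero.mpr v1.1, hT.2⟩, v2, v1⟩
          · intro v _ _; positivity
  -- the part above
  have h2 : ∑ T ∈ P.powerset.filter (fun T => ¬ ∏ p ∈ T, p ≤ z^A), a T ≤ (1/2) * ∏ p ∈ P, (1 + lam / (p:ℝ)) := by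
    set y : ℕ → ℝ := fun p => Real.exp (Real.log p / Real.log z) with hy
    have hT : ∀ T ∈ P.powerset.filter (fun T => ¬ ∏ p ∈ T, p ≤ z^A), a T ≤ Real.exp (-A) * ∏ p ∈ T, (lam / (p:ℝ) * y p) := by
      intro T hT
      rw [mem_filter] at hT
      have hpr := hprime T hT.1
      rw [prod_mul_distrib]
      have e1 : ∏ p ∈ T, y p = Real.exp ((∑ p ∈ T, Real.log p) / Real.log z) := by
        simp only [hy]
        rw [← Real.exp_sum, sum_div]
      have e2 : ∑ p ∈ T, Real.log p = Real.log ((∏ p ∈ T, p : ℕ) : ℝ) := by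
        push_cast
        rw [Real.log_prod]
        intro p hp
        have := (hpr p hp).1.pos
        positivity
      have e3 : (A:ℝ) * Real.log z ≤ ∑ p ∈ T, Real.log p := by
        rw [e2]
        have h3 : z^A ≤ ∏ p ∈ T, p := by have := hT.2; omega
        have h4 : ((z:ℝ)^A) ≤ ((∏ p ∈ T, p : ℕ) : ℝ) := by exact_mod_cast h3
        have h5 := Real.log_le_log (by positivity) h4
        rwa [Real.log_pow] at h5
      have e4 : Real.exp A ≤ ∏ p ∈ T, y p := by
        rw [e1]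
        apply Real.exp_le_exp.mpr
        rw [le_div_iff₀ hlz0]; exact e3
      have ha0 : 0 ≤ a T := by simp only [ha]; exact prod_nonneg fun p _ => by positivity
      calc a T = Real.exp (-A) * (a T * Real.exp A) := by
            rw [mul_left_comm, ← Real.exp_add]; simp
        _ ≤ _ := by
            apply mul_le_mul_of_nonneg_left _ (Real.exp_pos _).le
            exact mul_le_mul_of_nonneg_left e4 ha0
    have hsum : ∑ T ∈ P.powerset.filter (fun T => ¬ ∏ p ∈ T, p ≤ z^A), a T ≤ Real.exp (-A) * ∏ p ∈ P, (1 + lam / (p:ℝ) * y p) := by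
      refine (sum_le_sum hT).trans ?_
      rw [← mul_sum]
      apply mul_le_mul_of_nonneg_left _ (Real.exp_pos _).le
      rw [prod_one_add]
      apply sum_le_sum_of_subset_of_nonneg (filter_subset _ _)
      intro T _ _
      exact prod_nonneg fun p _ => by simp only [hy]; positivity
    have hpt : ∀ p ∈ P, 1 + lam / (p:ℝ) * y p ≤ (1 + lam / (p:ℝ)) * Real.exp (2 * lam * ((Real.log p / p) / Real.log z)) := by
      intro p hp
      rw [hP, mem_PR] at hp
      have hp0 : (0:ℝ) < p := by exact_mod_cast hp.2.1.pos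
      have hp1 : (1:ℝ) ≤ p := by exact_mod_cast hp.2.1.one_lt.le
      set x := Real.log p / Real.log z with hx
      have hx0 : 0 ≤ x := div_nonneg (Real.log_nonneg hp1) hlz0.le
      have hx1 : x ≤ 1 := by
        rw [hx, div_le_one hlz0]
        exact Real.log_le_log hp0 (by exact_mod_cast hp.1)
      have h3 := Real.abs_exp_sub_one_sub_id_le (x := x) (by rw [abs_of_nonneg hx0]; exact hx1)
      have h4 : Real.exp x ≤ 1 + 2 * x := by
        have := (abs_le.mp h3).2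
        nlinarith
      have h5 : 2 * lam * ((Real.log p / p) / Real.log z) = 2 * (lam / p) * x := by rw [hx]; ring
      rw [h5]
      have h6 : 2 * (lam / p) * x + 1 ≤ Real.exp (2 * (lam / p) * x) := Real.add_one_le_exp _
      have h7 : 0 ≤ lam / (p:ℝ) := by positivity
      calc 1 + lam / (p:ℝ) * y p ≤ 1 + lam / (p:ℝ) * (1 + 2 * x) := by
            have : y p ≤ 1 + 2 * x := h4
            gcongr
        _ ≤ (1 + lam / (p:ℝ)) * (2 * (lam / p) * x + 1) := by
            have : 0 ≤ (lam / (p:ℝ)) * (2 * (lam / p) * x) := by positivity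
            nlinarith
        _ ≤ _ := mul_le_mul_of_nonneg_left h6 (by positivity)
    have hprod : ∏ p ∈ P, (1 + lam / (p:ℝ) * y p) ≤ (∏ p ∈ P, (1 + lam / (p:ℝ))) * Real.exp (4 * lam) := by
      refine (prod_le_prod (fun p _ => by simp only [hy]; positivity) hpt).trans ?_
      rw [prod_mul_distrib, ← Real.exp_sum]
      apply mul_le_mul_of_nonneg_left _ (prod_nonneg fun p _ => by positivity)
      apply Real.exp_le_exp.mpr
      rw [← mul_sum, ← sum_div]
      have h3 : ∑ p ∈ P, Real.log p / (p:ℝ) ≤ ∑ p ∈ (Icc 1 z).filter Nat.Prime, Real.log p / (p:ℝ) := by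
        apply sum_le_sum_of_subset_of_nonneg
        · intro p hp
          rw [hP, mem_PR] at hp
          rw [mem_filter, mem_Icc]
          exact ⟨⟨hp.2.1.one_lt.le, hp.1⟩, hp.2.1⟩
        · intro p _ _
          have := Real.log_natCast_nonneg p
          positivity
      have h4 := (abs_le.mp (hC z hz1)).2
      have h5 : (∑ p ∈ P, Real.log p / (p:ℝ)) / Real.log z ≤ 2 := by
        rw [div_le_iff₀ hlz0]; linarith
      nlinarith
    have hPi0 : 0 ≤ ∏ p ∈ P, (1 + lam / (p:ℝ)) := prod_nonneg fun p _ => by positivity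
    have hfin : Real.exp (-A) * Real.exp (4 * lam) ≤ 1/2 := by
      rw [← Real.exp_add]
      calc Real.exp (-A + 4 * lam) ≤ Real.exp (-1) := Real.exp_le_exp.mpr (by linarith)
        _ ≤ 1/2 := by
          rw [Real.exp_neg, inv_eq_one_div]
          apply one_div_le_one_div_of_le (by norm_num)
          have := Real.add_one_le_exp (1:ℝ)
          linarith
    calc _ ≤ Real.exp (-A) * ∏ p ∈ P, (1 + lam / (p:ℝ) * y p) := hsum
      _ ≤ Real.exp (-A) * ((∏ p ∈ P, (1 + lam / (p:ℝ))) * Real.exp (4 * lam)) := mul_le_mul_of_nonneg_left hprod (Real.exp_pos _).le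
      _ = (Real.exp (-A) * Real.exp (4 * lam)) * ∏ p ∈ P, (1 + lam / (p:ℝ)) := by ring
      _ ≤ _ := mul_le_mul_of_nonneg_right hfin hPi0
  rw [← hexp] at hsplit
  linarith

/-- the product is large -/
lemma prod_low {lam : ℝ} (hl : 0 < lam) (w : ℕ) (hw1 : 1 ≤ w) (hw : 2 * lam ≤ w) : ∃ c : ℝ, 0 < c ∧ ∀ z : ℕ, 3 ≤ z →
    c * (Real.log z) ^ lam ≤ ∏ p ∈ PR w z, (1 + lam / (p:ℝ)) := by
  obtain ⟨C, hC⟩ := Pool.Agent.Helper256.KM.mertens_inv
  refine ⟨Real.exp (-(lam * C + lam * w + lam)), Real.exp_pos _, ?_⟩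
  intro z hz
  have hw0 : (0:ℝ) < w := by exact_mod_cast hw1
  have hz3 : (3:ℝ) ≤ z := by exact_mod_cast hz
  have hlz : 0 < Real.log z := Real.log_pos (by linarith)
  have step : ∀ p ∈ PR w z, Real.exp (lam / (p:ℝ) - (lam/(p:ℝ))^2) ≤ 1 + lam / (p:ℝ) := by
    intro p hp
    rw [mem_PR] at hp
    have h1 : (w:ℝ) < p := by exact_mod_cast hp.2.2
    have hp0 : (0:ℝ) < p := by linarith
    set x := lam / (p:ℝ) with hx
    have hx0 : 0 ≤ x := by positivity
    have hx1 : x ≤ 1/2 := by rw [hx, div_le_iff₀ hp0]; linarith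
    have h3 := Real.abs_exp_sub_one_sub_id_le (x := x - x^2) (by rw [abs_le]; constructor <;> nlinarith)
    have h4 := (abs_le.mp h3).2
    nlinarith [mul_nonneg hx0 hx0, mul_nonneg (mul_nonneg hx0 hx0) hx0]
  have h1 : Real.exp (∑ p ∈ PR w z, (lam / (p:ℝ) - (lam/(p:ℝ))^2)) ≤ ∏ p ∈ PR w z, (1 + lam / (p:ℝ)) := by
    rw [Real.exp_sum]
    exact prod_le_prod (fun p _ => (Real.exp_pos _).le) step
  refine le_trans ?_ h1
  have e1 : (Real.log z) ^ lam = Real.exp (lam * Real.log (Real.log z)) := by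
    rw [Real.rpow_def_of_pos hlz, mul_comm]
  rw [e1, ← Real.exp_add]
  apply Real.exp_le_exp.mpr
  rw [sum_sub_distrib]
  have e2 : ∑ p ∈ PR w z, (lam/(p:ℝ))^2 ≤ lam := by
    have e3 : ∑ p ∈ PR w z, (lam / (p:ℝ))^2 = lam^2 * ∑ p ∈ PR w z, (1:ℝ) / (p:ℝ)^2 := by
      rw [mul_sum]; refine sum_congr rfl fun p _ => ?_
      rw [div_pow]; ring
    rw [e3]
    have e4 := PR_sq (z := z) hw1
    calc lam^2 * ∑ p ∈ PR w z, (1:ℝ) / (p:ℝ)^2 ≤ lam^2 * (1 / w) := by gcongr
      _ = lam * (lam / w) := by ring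
      _ ≤ lam * 1 := by
        apply mul_le_mul_of_nonneg_left _ hl.le
        rw [div_le_one hw0]; linarith
      _ = lam := mul_one _
  have e5 : Real.log (Real.log z) - C - w ≤ ∑ p ∈ PR w z, (1:ℝ) / p := by
    have h3 := (abs_le.mp (hC z hz)).1
    have h4 : ∑ p ∈ (Icc 1 z).filter Nat.Prime, (1:ℝ) / p ≤ ∑ p ∈ PR w z, (1:ℝ) / p + ∑ p ∈ Icc 1 w, (1:ℝ) / p := by
      have h5 : (Icc 1 z).filter Nat.Prime ⊆ PR w z ∪ Icc 1 w := by
        intro p hp
        rw [mem_filter, mem_Icc] at hp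
        rw [mem_union, mem_PR, mem_Icc]
        by_cases h6 : w < p
        · exact Or.inl ⟨hp.1.2, hp.2, h6⟩
        · exact Or.inr ⟨hp.1.1, by omega⟩
      refine (sum_le_sum_of_subset_of_nonneg h5 (fun p _ _ => by positivity)).trans ?_
      have h7 := sum_union_inter (s₁ := PR w z) (s₂ := Icc 1 w) (f := fun p : ℕ => (1:ℝ) / p)
      have h8 : 0 ≤ ∑ p ∈ PR w z ∩ Icc 1 w, (1:ℝ) / (p:ℝ) := sum_nonneg fun p _ => by positivity
      linarith
    have h9 : ∑ p ∈ Icc 1 w, (1:ℝ) / p ≤ w := by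
      calc ∑ p ∈ Icc 1 w, (1:ℝ) / (p:ℝ) ≤ ∑ p ∈ Icc 1 w, (1:ℝ) := by
            refine sum_le_sum fun p hp => ?_
            rw [mem_Icc] at hp
            rw [div_le_one (by exact_mod_cast hp.1)]
            exact_mod_cast hp.1
        _ = w := by simp
    linarith
  have e6 : ∑ p ∈ PR w z, lam / (p:ℝ) = lam * ∑ p ∈ PR w z, (1:ℝ) / p := by
    rw [mul_sum]; refine sum_congr rfl fun p _ => by ring
  rw [e6]
  nlinarith

/-- **summary of the number theory** -/
theorem nt {lam : ℝ} (hl : 0 < lam) (r : ℕ) (hr : 1 ≤ r) : ∃ A : ℕ, 1 ≤ A ∧ ∃ CR : ℝ, 0 < CR ∧ ∀ w : ℕ, 1 ≤ w → 2 * lam ≤ w →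
    ∃ c : ℝ, 0 < c ∧ ∃ z0 : ℕ, ∀ z : ℕ, z0 ≤ z →
      c * (Real.log z) ^ lam ≤ G0 w lam (z^A) ∧ ∑ h ∈ Icc 1 ((z^A)^r), G w lam h / h ≤ CR * G0 w lam (z^A) := by
  obtain ⟨A, hA⟩ : ∃ A : ℕ, 4 * lam + 1 ≤ A := ⟨⌈4 * lam + 1⌉₊, Nat.le_ceil _⟩
  have hA1 : 1 ≤ A := by
    have : (1:ℝ) ≤ A := by linarith
    exact_mod_cast this
  obtain ⟨z1, h1⟩ := rankin hl A hA
  obtain ⟨z2, h2⟩ := prod_ratio hl (A * r) (Nat.one_le_iff_ne_zero.mpr (mul_ne_zero (by omega) (by omega)))
  refine ⟨A, hA1, 2 * Real.exp (lam + 2 * lam * ((A * r : ℕ) + 1)), by positivity, ?_⟩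
  intro w hw1 hw
  obtain ⟨c, hc, h3⟩ := prod_low hl w hw1 hw
  refine ⟨c / 2, by positivity, max 3 (max z1 z2), ?_⟩
  intro z hz
  have hz3 : 3 ≤ z := (le_max_left _ _).trans hz
  have hz1 : z1 ≤ z := (le_max_left _ _).trans ((le_max_right _ _).trans hz)
  have hz2 : z2 ≤ z := (le_max_right _ _).trans ((le_max_right _ _).trans hz)
  have g1 := h1 w z hz1
  have g2 := h2 w z hz2 hw1 hw
  have g3 := h3 z hz3
  have g4 := HS_le hl.le hw ((z^A)^r)
  rw [← pow_mul] at g4 ⊢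
  refine ⟨by linarith, ?_⟩
  calc _ ≤ _ := g4
    _ ≤ _ := g2
    _ = 2 * Real.exp (lam + 2 * lam * ((A * r : ℕ) + 1)) * ((1/2) * ∏ p ∈ PR w z, (1 + lam / (p:ℝ))) := by ring
    _ ≤ _ := mul_le_mul_of_nonneg_left g1 (by positivity)

end Pool.Agent.H31.ZD
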